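import Pool.Agent.Helper64_Sp.Frame

/-!
# Frames adapted to a flag, transitivity for frames with the same ideals
-/

set_option autoImplicit false
set_option linter.unusedSectionVars false

open Matrix
open scoped nonZeroDivisors
open FractionalIdeal

namespace Pool.Agent.Helper64_Sp

variable {R K : Type*} [CommRing R] [IsDedekindDomain R] [Field K] [Algebra R K]
  [IsFractionRing R K] {n : ℕ}

/-- The span of the first `i + 1` vectors. -/
def spn (e : ℕ → Vc K n) (i : ℕ) : Submodule K (Vc K n) :=
  Submodule.span K (Set.range fun j : Fin (i + 1) => e j)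

namespace PF

variable {m : ℕ} {e f e' f' : ℕ → Vc K n} {I I' : ℕ → FractionalIdeal R⁰ K}

theorem linInd (h : PF m e f I) {i : ℕ} (hi : i < m) :
    LinearIndependent K (fun j : Fin (i + 1) => e j) := by
  rw [Fintype.linearIndependent_iff]
  intro g hg k
  have hk : (k : ℕ) < m := by omega
  have h1 := congrArg (fun x => om K n x (f k)) hg
  simp only [map_zero, LinearMap.zero_apply, map_sum, LinearMap.sum_apply, map_smul,
    LinearMap.smul_apply, smul_eq_mul] at h1
  rw [Finset.sum_eq_single k] at h1
  · rwa [h.ef k hk k hk, if_pos rfl, mul_one] at h1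
  · intro j _ hjk
    rw [h.ef j (by omega) k hk, if_neg (fun h => hjk (Fin.ext h)), mul_zero]
  · intro hk'
    exact absurd (Finset.mem_univ k) hk'

theorem finrank_spn (h : PF m e f I) {i : ℕ} (hi : i < m) :
    Module.finrank K (spn e i) = i + 1 := by
  rw [spn, finrank_span_eq_card (h.linInd hi), Fintype.card_fin]

theorem proj_eq (h : PF n e f I) (x : Vc K n) : proj n e f x = x := by
  classical
  let Φ : Vc K n →ₗ[K] (Fin n → K) × (Fin n → K) :=
    LinearMap.prod (LinearMap.pi fun j => om K n (e j)) (LinearMap.pi fun j => (om K n).flip (f j))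
  have hs : Function.Surjective Φ := by
    rintro ⟨b, a⟩
    refine ⟨∑ j, (a j • e j + b j • f j), ?_⟩
    refine Prod.ext ?_ ?_
    · funext k
      change om K n (e k) (∑ j : Fin n, (a j • e j + b j • f j)) = b k
      simp only [map_sum, map_add, map_smul, smul_eq_mul]
      rw [Finset.sum_eq_single k]
      · rw [h.ee k k.2 k k.2, h.ef k k.2 k k.2]; simp
      · intro j _ hjk
        rw [h.ee k k.2 j j.2, h.ef k k.2 j j.2, if_neg (fun h => hjk (Fin.ext h).symm)]; simp
      · intro hk'
        exact absurd (Finset.mem_univ k) hk'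
    · funext k
      change om K n (∑ j : Fin n, (a j • e j + b j • f j)) (f k) = a k
      simp only [map_sum, map_add, map_smul, smul_eq_mul, LinearMap.sum_apply, LinearMap.add_apply,
        LinearMap.smul_apply]
      rw [Finset.sum_eq_single k]
      · rw [h.ff k k.2 k k.2, h.ef k k.2 k k.2]; simp
      · intro j _ hjk
        rw [h.ff j j.2 k k.2, h.ef j j.2 k k.2, if_neg (fun h => hjk (Fin.ext h))]; simp
      · intro hk'
        exact absurd (Finset.mem_univ k) hk'
  have hd : Module.finrank K (Vc K n) = Module.finrank K ((Fin n → K) × (Fin n → K)) := by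
    simp [Module.finrank_prod, Module.finrank_fintype_fun_eq_card]
  have hi : Function.Injective Φ :=
    (LinearMap.injective_iff_surjective_of_finrank_eq_finrank hd).2 hs
  apply hi
  refine Prod.ext ?_ ?_
  · funext k
    exact h.om_proj_e x k.2
  · funext k
    exact h.om_proj_f x k.2

/-- The linear map carrying one frame to the other. -/
noncomputable def tr (m : ℕ) (e f e' f' : ℕ → Vc K n) : Vc K n →ₗ[K] Vc K n :=
  ∑ j ∈ Finset.range m,
    (LinearMap.smulRight ((om K n).flip (f j)) (e' j) + LinearMap.smulRight (om K n (e j)) (f' j))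

theorem tr_apply (x : Vc K n) :
    tr m e f e' f' x = ∑ j ∈ Finset.range m, (om K n x (f j) • e' j + om K n (e j) x • f' j) := by
  simp only [tr, LinearMap.sum_apply, LinearMap.add_apply, LinearMap.smulRight_apply]
  rfl

theorem tr_e (h : PF m e f I) {k : ℕ} (hk : k < m) : tr m e f e' f' (e k) = e' k := by
  rw [tr_apply, Finset.sum_eq_single k]
  · rw [h.ef k hk k hk, h.ee k hk k hk]; simp
  · intro j hj hjk
    rw [Finset.mem_range] at hj
    rw [h.ef k hk j hj, h.ee j hj k hk, if_neg hjk.symm]; simp
  · intro hk'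
    exact absurd (Finset.mem_range.2 hk) hk'

theorem om_e_tr (h' : PF m e' f' I') (x : Vc K n) {k : ℕ} (hk : k < m) :
    om K n (e' k) (tr m e f e' f' x) = om K n (e k) x := by
  rw [tr_apply, map_sum, Finset.sum_eq_single k]
  · rw [map_add, map_smul, map_smul, h'.ee k hk k hk, h'.ef k hk k hk]; simp
  · intro j hj hjk
    rw [Finset.mem_range] at hj
    rw [map_add, map_smul, map_smul, h'.ee k hk j hj, h'.ef k hk j hj, if_neg hjk.symm]; simp
  · intro hk'
    exact absurd (Finset.mem_range.2 hk) hk'

theorem om_f_tr (h' : PF m e' f' I') (x : Vc K n) {k : ℕ} (hk : k < m) :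
    om K n (f' k) (tr m e f e' f' x) = om K n (f k) x := by
  rw [tr_apply, map_sum, Finset.sum_eq_single k]
  · rw [map_add, map_smul, map_smul, h'.fe hk hk, h'.ff k hk k hk, if_pos rfl, om_neg (f k) x]
    simp
  · intro j hj hjk
    rw [Finset.mem_range] at hj
    rw [map_add, map_smul, map_smul, h'.fe hk hj, h'.ff k hk j hj, if_neg hjk.symm]; simp
  · intro hk'
    exact absurd (Finset.mem_range.2 hk) hk'

theorem om_tr (h : PF n e f I) (h' : PF n e' f' I') (x y : Vc K n) :
    om K n (tr n e f e' f' x) (tr n e f e' f' y) = om K n x y := by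
  conv_rhs => rw [← h.proj_eq x]
  rw [tr_apply x, proj, map_sum, map_sum, LinearMap.sum_apply, LinearMap.sum_apply]
  refine Finset.sum_congr rfl fun j hj => ?_
  rw [Finset.mem_range] at hj
  rw [map_add, map_add, LinearMap.add_apply, LinearMap.add_apply, map_smul, map_smul, map_smul,
    map_smul, LinearMap.smul_apply, LinearMap.smul_apply, LinearMap.smul_apply,
    LinearMap.smul_apply, om_e_tr h' y hj, om_f_tr h' y hj]

/-- Two frames with the same ideals are exchanged by an element of `Sp_{2n}(R)`. -/
theorem exists_sp (h : PF n e f I) (h' : PF n e' f' I') (hI : ∀ j < n, I j = I' j) :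
    ∃ g : Matrix.symplecticGroup (Fin n) R, ∀ i < n,
      (spn e i).map (Matrix.toLin'
        ((g : Matrix (Fin n ⊕ Fin n) (Fin n ⊕ Fin n) R).map (algebraMap R K))) = spn e' i := by
  classical
  set G := tr n e f e' f' with hG
  have hint : ∀ x, IsInt R x → IsInt R (G x) := by
    intro x hx
    rw [hG, tr_apply]
    refine IsInt.sum fun j hj => ?_
    rw [Finset.mem_range] at hj
    refine (h'.le j hj _ ?_).add (h'.lf j hj _ ?_)
    · rw [← hI j hj]; exact h.ce j hj x hx
    · rw [← hI j hj]; exact h.cf j hj x hx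
  have hstd : ∀ b, IsInt R (Pi.single b (1 : K) : Vc K n) := by
    intro b j
    by_cases hbj : j = b
    · subst hbj; rw [Pi.single_eq_same]; exact one_mem_one _
    · rw [Pi.single_eq_of_ne hbj]; exact Submodule.zero_mem _
  have hM : ∀ a b, ∃ r : R, algebraMap R K r = LinearMap.toMatrix' G a b := by
    intro a b
    rw [LinearMap.toMatrix'_apply]
    have := hint _ (hstd b) a
    exact (mem_one_iff R⁰).1 (by simpa [Pi.single_apply] using this)
  choose r hr using hM
  have hmap : (Matrix.of r).map (algebraMap R K) = LinearMap.toMatrix' G := by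
    ext a b
    exact hr a b
  have hsymp : Matrix.of r ∈ Matrix.symplecticGroup (Fin n) R := by
    rw [SymplecticGroup.mem_iff']
    have hinj : Function.Injective
        (fun A : Matrix (Fin n ⊕ Fin n) (Fin n ⊕ Fin n) R => A.map (algebraMap R K)) :=
      Matrix.map_injective (IsFractionRing.injective R K)
    apply hinj
    have hJ : (Matrix.J (Fin n) R).map (algebraMap R K) = Matrix.J (Fin n) K := by
      ext a b
      rcases a with a | a <;> rcases b with b | b <;>
        simp [Matrix.J, Matrix.one_apply, apply_ite (algebraMap R K)]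
    have h1 : (om K n).comp G G = om K n := by
      refine LinearMap.ext₂ fun x y => ?_
      exact h.om_tr h' x y
    have h2 := congrArg LinearMap.BilinForm.toMatrix' h1
    rw [LinearMap.BilinForm.toMatrix'_comp, om, LinearMap.BilinForm.toMatrix'_toBilin'] at h2
    simp only [Matrix.map_mul, hJ, Matrix.transpose_map, hmap]
    exact h2
  refine ⟨⟨Matrix.of r, hsymp⟩, fun i hi => ?_⟩
  rw [show ((⟨Matrix.of r, hsymp⟩ : Matrix.symplecticGroup (Fin n) R) :
    Matrix (Fin n ⊕ Fin n) (Fin n ⊕ Fin n) R).map (algebraMap R K) = LinearMap.toMatrix' G from hmap,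
    Matrix.toLin'_toMatrix', spn, spn, Submodule.map_span, ← Set.range_comp]
  congr 2
  funext j
  exact h.tr_e (by omega)

end PF

/-- A frame adapted to a flag. -/
def Adapted {T : Finset (Fin n)} (F : Flag K n T) (e : ℕ → Vc K n) : Prop :=
  ∀ i : T, F.W i = spn e (i : Fin n)

theorem exists_ne_zero_ker {V W : Type*} [AddCommGroup V] [Module K V] [AddCommGroup W]
    [Module K W] [FiniteDimensional K V] [FiniteDimensional K W] (g : V →ₗ[K] W)
    (hd : Module.finrank K W < Module.finrank K V) : ∃ v, v ≠ 0 ∧ g v = 0 := by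
  have h1 := LinearMap.ker_ne_bot_of_finrank_lt hd (f := g)
  obtain ⟨v, hv, hv0⟩ := Submodule.exists_mem_ne_zero_of_ne_bot h1
  exact ⟨v, hv0, LinearMap.mem_ker.1 hv⟩

/-- Every flag has an adapted frame. -/
theorem exists_adapted {T : Finset (Fin n)} (F : Flag K n T) :
    ∃ e f : ℕ → Vc K n, ∃ I : ℕ → FractionalIdeal R⁰ K, PF n e f I ∧ Adapted F e := by
  classical
  have key : ∀ m ≤ n, ∃ e f : ℕ → Vc K n, ∃ I : ℕ → FractionalIdeal R⁰ K, PF m e f I ∧
      ∀ j < m, ∀ i : T, j ≤ (i : Fin n) → e j ∈ F.W i := by
    intro m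
    induction m with
    | zero =>
      intro _
      refine ⟨0, 0, 0, ⟨?_, ?_, ?_, ?_, ?_, ?_, ?_, ?_⟩, ?_⟩ <;> · intro j hj; omega
    | succ m ih =>
      intro hm
      obtain ⟨e, f, I, h, hW⟩ := ih (by omega)
      have hv : ∃ v : Vc K n, v ≠ 0 ∧ (∀ j < m, om K n (e j) v = 0) ∧
          (∀ j < m, om K n v (f j) = 0) ∧ ∀ i : T, m ≤ (i : Fin n) → v ∈ F.W i := by
        by_cases hT : ∃ i : T, m ≤ ((i : Fin n) : ℕ)
        · obtain ⟨i0, hi0, hmin⟩ : ∃ i0 : T, m ≤ ((i0 : Fin n) : ℕ) ∧
              ∀ i : T, m ≤ ((i : Fin n) : ℕ) → i0 ≤ i := by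
            obtain ⟨i0, hi0, hmin⟩ := Finset.exists_min_image
              (Finset.univ.filter fun i : T => m ≤ ((i : Fin n) : ℕ)) id
              (by obtain ⟨i, hi⟩ := hT; exact ⟨i, by simpa using hi⟩)
            refine ⟨i0, by simpa using hi0, fun i hi => hmin i (by simpa using hi)⟩
          obtain ⟨v, hv0, hv⟩ := exists_ne_zero_ker (K := K)
            ((LinearMap.pi fun j : Fin m => (om K n).flip (f j)).comp (F.W i0).subtype)
            (by rw [F.finrank_eq i0, Module.finrank_fin_fun]; omega)
          refine ⟨v, fun h0 => hv0 (Subtype.ext h0), ?_, ?_, ?_⟩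
          · intro j hj
            exact F.isotropic i0 _ (hW j hj i0 (by omega)) _ v.2
          · intro j hj
            exact congrFun hv ⟨j, hj⟩
          · intro i hi
            exact F.mono i0 i (hmin i hi) v.2
        · obtain ⟨v, hv0, hv⟩ := exists_ne_zero_ker (K := K)
            (LinearMap.prod (LinearMap.pi fun j : Fin m => om K n (e j))
              (LinearMap.pi fun j : Fin m => (om K n).flip (f j)))
            (by
              simp only [Module.finrank_prod, Module.finrank_fintype_fun_eq_card,
                Fintype.card_sum, Fintype.card_fin]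
              omega)
          refine ⟨v, hv0, ?_, ?_, ?_⟩
          · intro j hj
            exact congrFun (congrArg Prod.fst hv) ⟨j, hj⟩
          · intro j hj
            exact congrFun (congrArg Prod.snd hv) ⟨j, hj⟩
          · intro i hi
            exact absurd ⟨i, hi⟩ hT
      obtain ⟨v, hv0, hev, hvf, hvW⟩ := hv
      obtain ⟨w, J, hw⟩ := h.step hv0 hev hvf
      refine ⟨_, _, _, hw, ?_⟩
      intro j hj i hji
      rcases Nat.lt_succ_iff_lt_or_eq.1 hj with hj | rfl
      · rw [Function.update_of_ne (ne_of_lt hj)]; exact hW j hj i hji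
      · rw [Function.update_self]; exact hvW i hji
  obtain ⟨e, f, I, h, hW⟩ := key n le_rfl
  refine ⟨e, f, I, h, fun i => ?_⟩
  symm
  apply Submodule.eq_of_le_of_finrank_eq
  · rw [spn, Submodule.span_le]
    rintro _ ⟨j, rfl⟩
    exact hW j (by have := i.1.2; omega) i (by omega)
  · rw [h.finrank_spn i.1.2, F.finrank_eq]

end Pool.Agent.Helper64_Sp
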