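import Pool.Agent.Helper64_Sp.Normal

/-!
# The orbits of `Sp_{2n}(R)` on flags
-/

set_option autoImplicit false
set_option linter.unusedSectionVars false

open Matrix
open scoped nonZeroDivisors
open FractionalIdeal

namespace Pool.Agent.Helper64_Sp

variable {R K : Type*} [CommRing R] [IsDedekindDomain R] [Field K] [Algebra R K]
  [IsFractionRing R K] {n : ℕ}

/-! ### Classes of fractional ideals -/

open Classical in
/-- The class of a nonzero fractional ideal. -/
noncomputable def kl (P : FractionalIdeal R⁰ K) : ClassGroup R :=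
  if h : P = 0 then 1 else ClassGroup.mk K (Units.mk0 P h)

theorem kl_eq {P : FractionalIdeal R⁰ K} (h : P ≠ 0) : kl P = ClassGroup.mk K (Units.mk0 P h) :=
  dif_neg h

theorem kl_eq_iff {P Q : FractionalIdeal R⁰ K} (hP : P ≠ 0) (hQ : Q ≠ 0) :
    kl P = kl Q ↔ Sim P Q := by
  rw [kl_eq hP, kl_eq hQ, Helper48_PGL.mk_eq_mk_iff]
  constructor
  · rintro ⟨c, hc, h⟩
    exact ⟨c, hc, h.symm⟩
  · rintro ⟨c, hc, h⟩
    exact ⟨c, hc, h.symm⟩

theorem kl_mul {P Q : FractionalIdeal R⁰ K} (hP : P ≠ 0) (hQ : Q ≠ 0) :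
    kl (P * Q) = kl P * kl Q := by
  rw [kl_eq hP, kl_eq hQ, kl_eq (mul_ne_zero hP hQ), ← map_mul]
  congr 1
  ext1
  rfl

variable (K) in
theorem exists_kl (x : ClassGroup R) : ∃ P : FractionalIdeal R⁰ K, P ≠ 0 ∧ kl P = x := by
  obtain ⟨v, hv, h⟩ := Helper48_PGL.exists_cls (K := K) x
  refine ⟨Helper48_PGL.fid R v, Helper48_PGL.fid_ne_zero hv, ?_⟩
  rw [kl_eq (Helper48_PGL.fid_ne_zero hv)]
  exact h

/-- The product of the first `i + 1` ideals. -/
noncomputable def prd (I : ℕ → FractionalIdeal R⁰ K) (i : ℕ) : FractionalIdeal R⁰ K :=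
  ∏ j ∈ Finset.range (i + 1), I j

theorem PF.prd_ne {e f : ℕ → Vc K n} {I : ℕ → FractionalIdeal R⁰ K} (h : PF n e f I) {i : ℕ}
    (hi : i < n) : prd I i ≠ 0 :=
  Finset.prod_ne_zero_iff.2 fun j hj => h.ne j (by have := Finset.mem_range.1 hj; omega)

/-! ### The action of the group on frames -/

variable (K) in
/-- The action of a symplectic matrix on `K^{2n}`. -/
noncomputable def act (g : Matrix.symplecticGroup (Fin n) R) : Vc K n →ₗ[K] Vc K n :=
  Matrix.toLin' ((g : Matrix (Fin n ⊕ Fin n) (Fin n ⊕ Fin n) R).map (algebraMap R K))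

theorem act_mul (g g' : Matrix.symplecticGroup (Fin n) R) (x : Vc K n) :
    act K (g * g') x = act K g (act K g' x) := by
  rw [act, act, act, ← LinearMap.comp_apply, ← Matrix.toLin'_mul, ← Matrix.map_mul]
  rfl

theorem act_one (x : Vc K n) : act K (1 : Matrix.symplecticGroup (Fin n) R) x = x := by
  rw [act]
  have : ((1 : Matrix.symplecticGroup (Fin n) R) : Matrix (Fin n ⊕ Fin n) (Fin n ⊕ Fin n) R) = 1 :=
    rfl
  rw [this, Matrix.map_one _ (map_zero _) (map_one _), Matrix.toLin'_one, LinearMap.id_apply]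

theorem isInt_act (g : Matrix.symplecticGroup (Fin n) R) {x : Vc K n} (hx : IsInt R x) :
    IsInt R (act K g x) := by
  intro j
  rw [act, Matrix.toLin'_apply, Matrix.mulVec, dotProduct]
  refine Submodule.sum_mem _ fun k _ => ?_
  have h1 : ((g : Matrix (Fin n ⊕ Fin n) (Fin n ⊕ Fin n) R).map (algebraMap R K)) j k ∈
      (1 : FractionalIdeal R⁰ K) := (mem_one_iff R⁰).2 ⟨_, rfl⟩
  have := mul_mem_mul h1 (hx k)
  rwa [one_mul] at this

theorem om_act (g : Matrix.symplecticGroup (Fin n) R) (x y : Vc K n) :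
    om K n (act K g x) (act K g y) = om K n x y := by
  classical
  have hg := (SymplecticGroup.mem_iff' (A := (g : Matrix (Fin n ⊕ Fin n) (Fin n ⊕ Fin n) R))).1 g.2
  have hJ : (Matrix.J (Fin n) R).map (algebraMap R K) = Matrix.J (Fin n) K := by
    ext a b
    rcases a with a | a <;> rcases b with b | b <;>
      simp [Matrix.J, Matrix.one_apply, apply_ite (algebraMap R K)]
  have h1 := congrArg (fun A : Matrix (Fin n ⊕ Fin n) (Fin n ⊕ Fin n) R => A.map (algebraMap R K)) hg
  simp only [Matrix.map_mul, hJ, Matrix.transpose_map] at h1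
  have h2 : (om K n).comp (act K g) (act K g) = om K n := by
    apply LinearMap.BilinForm.toMatrix'.injective
    rw [LinearMap.BilinForm.toMatrix'_comp, om, LinearMap.BilinForm.toMatrix'_toBilin', act,
      LinearMap.toMatrix'_toLin']
    exact h1
  exact congrFun (congrArg DFunLike.coe (congrFun (congrArg DFunLike.coe h2) x)) y

namespace PF

variable {e f e' f' : ℕ → Vc K n} {I I' : ℕ → FractionalIdeal R⁰ K}

theorem act (h : PF n e f I) (g : Matrix.symplecticGroup (Fin n) R) :
    PF n (fun j => Helper64_Sp.act K g (e j)) (fun j => Helper64_Sp.act K g (f j)) I := by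
  have hinv : ∀ x : Vc K n, Helper64_Sp.act K g (Helper64_Sp.act K g⁻¹ x) = x := by
    intro x
    rw [← act_mul, mul_inv_cancel, act_one]
  refine ⟨?_, ?_, ?_, h.ne, ?_, ?_, ?_, ?_⟩
  · intro j hj k hk
    rw [om_act]; exact h.ee j hj k hk
  · intro j hj k hk
    rw [om_act]; exact h.ff j hj k hk
  · intro j hj k hk
    rw [om_act]; exact h.ef j hj k hk
  · intro j hj x hx
    rw [← hinv x, om_act]
    exact h.ce j hj _ (isInt_act _ hx)
  · intro j hj x hx
    rw [← hinv x, om_act]
    exact h.cf j hj _ (isInt_act _ hx)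
  · intro j hj a ha
    rw [← map_smul]
    exact isInt_act _ (h.le j hj a ha)
  · intro j hj a ha
    rw [← map_smul]
    exact isInt_act _ (h.lf j hj a ha)

theorem spn_act (g : Matrix.symplecticGroup (Fin n) R) (e : ℕ → Vc K n) (i : ℕ) :
    spn (fun j => Helper64_Sp.act K g (e j)) i = (spn e i).map (Helper64_Sp.act K g) := by
  rw [spn, spn, Submodule.map_span, ← Set.range_comp]
  rfl

end PF

/-! ### The classification -/

variable {T : Finset (Fin n)}

variable (R) in
/-- The classes attached to a flag. -/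
noncomputable def clS (F : Flag K n T) (i : T) : ClassGroup R :=
  kl (prd (exists_adapted (R := R) F).choose_spec.choose_spec.choose (i : Fin n))

theorem clS_eq {e f : ℕ → Vc K n} {I : ℕ → FractionalIdeal R⁰ K} (F : Flag K n T)
    (h : PF n e f I) (ha : Adapted F e) (i : T) : clS R F i = kl (prd I (i : Fin n)) := by
  have h0 := (exists_adapted (R := R) F).choose_spec.choose_spec.choose_spec
  have hi := i.1.2
  rw [clS, kl_eq_iff (h0.1.prd_ne hi) (h.prd_ne hi)]
  exact h0.1.sim_of_spn_eq h hi ((ha i).symm.trans (h0.2 i))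

theorem spRel_iff (F F' : Flag K n T) :
    spRel R K n T F F' ↔ ∀ i, clS R F i = clS R F' i := by
  constructor
  · rintro ⟨g, hg⟩ i
    obtain ⟨e, f, I, h, ha⟩ := exists_adapted (R := R) F
    rw [clS_eq F h ha i, clS_eq F' (h.act g) ?_ i]
    intro i
    rw [PF.spn_act, ← hg i, ha i]
    rfl
  · intro hcl
    obtain ⟨e, f, I, h, ha⟩ := exists_adapted (R := R) F
    obtain ⟨e', f', I', h', ha'⟩ := exists_adapted (R := R) F'
    obtain ⟨e1, f1, I1, h1, ha1, -, hI1⟩ := h.exists_normal F (J := I') h'.ne ha (by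
      intro i
      have := hcl i
      rw [clS_eq F h ha i, clS_eq F' h' ha' i,
        kl_eq_iff (h.prd_ne i.1.2) (h'.prd_ne i.1.2)] at this
      exact this) n le_rfl
    obtain ⟨g, hg⟩ := h1.exists_sp h' hI1
    refine ⟨g, fun i => ?_⟩
    rw [ha1 i, ha' i]
    exact hg _ i.1.2

theorem PF.om_spn {e f : ℕ → Vc K n} {I : ℕ → FractionalIdeal R⁰ K} (h : PF n e f I) {i : ℕ}
    (hi : i < n) : ∀ x ∈ spn e i, ∀ y ∈ spn e i, om K n x y = 0 := by
  have h1 : ∀ k ≤ i, ∀ y ∈ spn e i, om K n (e k) y = 0 := by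
    intro k hk y hy
    rw [spn] at hy
    induction hy using Submodule.span_induction with
    | mem y hy =>
      obtain ⟨j, rfl⟩ := hy
      exact h.ee k (by omega) j (by omega)
    | zero => rw [map_zero]
    | add x y _ _ hx hy => rw [map_add, hx, hy, add_zero]
    | smul c x _ hx => rw [map_smul, hx, smul_zero]
  intro x hx y hy
  rw [spn] at hx
  induction hx using Submodule.span_induction with
  | mem x hx =>
    obtain ⟨j, rfl⟩ := hx
    exact h1 j (by omega) y hy
  | zero => rw [map_zero, LinearMap.zero_apply]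
  | add x y _ _ hx hy => rw [map_add, LinearMap.add_apply, hx, hy, add_zero]
  | smul c x _ hx => rw [map_smul, LinearMap.smul_apply, hx, smul_zero]

theorem spn_mono (e : ℕ → Vc K n) {i j : ℕ} (hij : i ≤ j) : spn e i ≤ spn e j := by
  rw [spn, Submodule.span_le]
  rintro _ ⟨k, rfl⟩
  exact PF.mem_spn e (by omega)

/-- The flag of a frame. -/
def PF.flag {e f : ℕ → Vc K n} {I : ℕ → FractionalIdeal R⁰ K} (h : PF n e f I)
    (T : Finset (Fin n)) : Flag K n T where
  W i := spn e (i : Fin n)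
  finrank_eq i := h.finrank_spn i.1.2
  isotropic i := h.om_spn i.1.2
  mono _ _ hij := spn_mono e hij

theorem exists_flag (c : T → ClassGroup R) : ∃ F : Flag K n T, ∀ i, clS R F i = c i := by
  classical
  let c' : ℕ → ClassGroup R := fun i => if h : ∃ hi : i < n, (⟨i, hi⟩ : Fin n) ∈ T then
    c ⟨⟨i, h.1⟩, h.2⟩ else 1
  have hc' : ∀ i : T, c' (i : Fin n) = c i := by
    intro i
    exact dif_pos ⟨i.1.2, i.2⟩
  let d : ℕ → ClassGroup R := fun i => if i = 0 then c' 0 else c' i / c' (i - 1)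
  choose J hJ0 hJ using fun i => exists_kl K (d i)
  have hprd0 : ∀ i, prd J i ≠ 0 := fun i => Finset.prod_ne_zero_iff.2 fun j _ => hJ0 j
  have hprd : ∀ i, kl (prd J i) = c' i := by
    intro i
    induction i with
    | zero =>
      rw [prd, zero_add, Finset.prod_range_one, hJ]
      rfl
    | succ i ih =>
      have : prd J (i + 1) = prd J i * J (i + 1) := Finset.prod_range_succ _ _
      rw [this, kl_mul (hprd0 i) (hJ0 _), ih, hJ]
      change c' i * (c' (i + 1) / c' i) = c' (i + 1)
      rw [mul_div_cancel]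
  let F0 : Flag K n (∅ : Finset (Fin n)) :=
    { W := fun i => absurd i.2 (Finset.notMem_empty _)
      finrank_eq := fun i => absurd i.2 (Finset.notMem_empty _)
      isotropic := fun i => absurd i.2 (Finset.notMem_empty _)
      mono := fun i => absurd i.2 (Finset.notMem_empty _) }
  obtain ⟨e, f, I, h, ha⟩ := exists_adapted (R := R) F0
  obtain ⟨e1, f1, I1, h1, -, -, hI1⟩ := h.exists_normal F0 (J := J) (fun j _ => hJ0 j) ha
    (fun i => absurd i.2 (Finset.notMem_empty _)) n le_rfl
  refine ⟨h1.flag T, fun i => ?_⟩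
  rw [clS_eq (h1.flag T) h1 (fun _ => rfl) i, ← hc' i, ← hprd]
  congr 1
  refine Finset.prod_congr rfl fun j hj => hI1 j ?_
  have := Finset.mem_range.1 hj
  have := i.1.2
  omega

theorem clS_face {J : Finset (Fin n)} (hJT : J ⊆ T) (F : Flag K n T) (j : J) :
    clS R (F.face hJT) j = clS R F ⟨j.1, hJT j.2⟩ := by
  obtain ⟨e, f, I, h, ha⟩ := exists_adapted (R := R) F
  rw [clS_eq F h ha, clS_eq (F.face hJT) h (fun i => ha ⟨i.1, hJT i.2⟩)]

variable (R K n) in
/-- The cells of type `T` of `Δ(Sp_{2n}(K))/Sp_{2n}(R)`. -/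
noncomputable def spEquiv (T : Finset (Fin n)) : SpCells R K n T ≃ (T → ClassGroup R) :=
  Equiv.ofBijective (Quot.lift (fun F => clS R F) fun F F' h => funext ((spRel_iff F F').1 h)) (by
    constructor
    · rintro ⟨F⟩ ⟨F'⟩ h
      exact Quot.sound ((spRel_iff F F').2 fun i => congrFun h i)
    · intro c
      obtain ⟨F, hF⟩ := exists_flag (K := K) c
      exact ⟨Quot.mk _ F, funext hF⟩)

theorem slRel_iff (L L' : Tuple K n T) :
    slRel R K n T L L' ↔ ∀ i, Helper48_PGL.clsL R (L i) = Helper48_PGL.clsL R (L' i) := by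
  constructor
  · rintro ⟨g, hg⟩ i
    exact (Helper48_PGL.slRel_iff _ _).1 ⟨g i, hg i⟩
  · intro h
    have h1 : ∀ i : T, ∃ g : Matrix.SpecialLinearGroup (Fin 2) R,
        (L i).1.map (Matrix.toLin' ((g : Matrix (Fin 2) (Fin 2) R).map (algebraMap R K))) =
          (L' i).1 := fun i => (Helper48_PGL.slRel_iff _ _).2 (h i)
    choose g hg using h1
    classical
    let g' : Fin n → Matrix.SpecialLinearGroup (Fin 2) R :=
      fun i => if hi : i ∈ T then g ⟨i, hi⟩ else 1
    have hg' : ∀ i : T, g' i = g i := fun i => dif_pos i.2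
    refine ⟨g', fun i => ?_⟩
    rw [hg' i]
    exact hg i

variable (R K n) in
/-- The cells of type `T` of `Δ(𝒮(K))/𝒮(R)`; the classes are inverted so that they are the classes
of the modules `L ∩ R²`. -/
noncomputable def slEquiv (T : Finset (Fin n)) : SCells R K n T ≃ (T → ClassGroup R) :=
  Equiv.ofBijective (Quot.lift (fun L i => (Helper48_PGL.clsL R (L i))⁻¹)
    fun L L' h => funext fun i => congrArg (·⁻¹) ((slRel_iff L L').1 h i)) (by
    constructor
    · rintro ⟨L⟩ ⟨L'⟩ h
      exact Quot.sound ((slRel_iff L L').2 fun i => inv_injective (congrFun h i))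
    · intro c
      choose L hL using fun i => Helper48_PGL.exists_line (K := K) (c i)⁻¹
      refine ⟨Quot.mk _ L, funext fun i => ?_⟩
      change (Helper48_PGL.clsL R (L i))⁻¹ = c i
      rw [hL, inv_inv])

variable (R K n) in
/-- The isomorphism. -/
noncomputable def iso (T : Finset (Fin n)) : SpCells R K n T ≃ SCells R K n T :=
  (spEquiv R K n T).trans (slEquiv R K n T).symm

theorem iso_face {J : Finset (Fin n)} (hJT : J ⊆ T) (c : SpCells R K n T) :
    iso R K n J (SpCells.face hJT c) = SCells.face hJT (iso R K n T c) := by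
  rw [iso, Equiv.trans_apply, Equiv.symm_apply_eq]
  obtain ⟨F⟩ := c
  obtain ⟨L, hL⟩ : ∃ L, Quot.mk (slRel R K n T) L = iso R K n T (Quot.mk _ F) :=
    Quot.exists_rep _
  rw [← hL]
  rw [iso, Equiv.trans_apply, Equiv.eq_symm_apply] at hL
  funext j
  have h1 := congrFun hL ⟨j.1, hJT j.2⟩
  change (Helper48_PGL.clsL R (L ⟨j.1, hJT j.2⟩))⁻¹ = clS R F ⟨j.1, hJT j.2⟩ at h1
  change clS R (F.face hJT) j = (Helper48_PGL.clsL R (L ⟨j.1, hJT j.2⟩))⁻¹
  rw [h1, clS_face]

end Pool.Agent.Helper64_Sp
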