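import Pool.Agent.Helper48_PGL.Orbits

/-!
# The quotient of the spherical building of `Sp_{2n}(K)` by `Sp_{2n}(R)`

The simplices of the spherical building of `Sp_{2n}(K)` are the flags of isotropic subspaces of
`K^{2n}` (their stabilizers are the proper parabolic subgroups). The type of a simplex is the set of
the dimensions of its members; here a type is a finite set `I` of elements `i` of `Fin n`, and
`i ∈ I` stands for a member of dimension `i + 1`.
-/

set_option autoImplicit false

open Matrix
open Pool.Agent.Helper48_PGL (Lines)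

namespace Pool.Agent.Helper64_Sp

variable (R K : Type*) [CommRing R] [Field K] [Algebra R K] (n : ℕ)

/-- The symplectic form on `K^{2n}`, with Mathlib's matrix `J`. -/
noncomputable def om : LinearMap.BilinForm K (Fin n ⊕ Fin n → K) :=
  Matrix.toBilin' (Matrix.J (Fin n) K)

/-- A simplex of type `I` of the building of `Sp_{2n}(K)`: isotropic subspaces `W i` of
dimension `i + 1`, one for every `i ∈ I`, increasing with `i`. -/
structure Flag (I : Finset (Fin n)) where
  /-- the members of the flag -/
  W : I → Submodule K (Fin n ⊕ Fin n → K)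
  finrank_eq : ∀ i, Module.finrank K (W i) = ((i : Fin n) : ℕ) + 1
  isotropic : ∀ i, ∀ x ∈ W i, ∀ y ∈ W i, om K n x y = 0
  mono : ∀ i j : I, i ≤ j → W i ≤ W j

variable {K n} in
/-- The face of type `J` of a simplex of type `I`. -/
def Flag.face {I J : Finset (Fin n)} (h : J ⊆ I) (F : Flag K n I) : Flag K n J where
  W j := F.W ⟨j.1, h j.2⟩
  finrank_eq j := F.finrank_eq ⟨j.1, h j.2⟩
  isotropic j := F.isotropic ⟨j.1, h j.2⟩
  mono _ _ hij := F.mono _ _ hij

/-- Two simplices of type `I` are in the same `Sp_{2n}(R)`-orbit. -/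
def spRel (I : Finset (Fin n)) (F F' : Flag K n I) : Prop :=
  ∃ g : Matrix.symplecticGroup (Fin n) R, ∀ i,
    (F.W i).map (Matrix.toLin'
      ((g : Matrix (Fin n ⊕ Fin n) (Fin n ⊕ Fin n) R).map (algebraMap R K))) = F'.W i

/-- The cells of type `I` of the quotient `Δ(Sp_{2n}(K))/Sp_{2n}(R)`. -/
abbrev SpCells (I : Finset (Fin n)) := Quot (spRel R K n I)

variable {R K n} in
/-- The face of type `J` of a cell of type `I` of `Δ(Sp_{2n}(K))/Sp_{2n}(R)`. -/
def SpCells.face {I J : Finset (Fin n)} (h : J ⊆ I) : SpCells R K n I → SpCells R K n J :=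
  Quot.map (Flag.face h) (by
    rintro F F' ⟨g, hg⟩
    exact ⟨g, fun j => hg ⟨j.1, h j.2⟩⟩)

/-- A simplex of type `I` of the building of `SL_2(K)^n`, the join of `n` copies of `P¹(K)`: one
line of `K²` for every `i ∈ I`. -/
abbrev Tuple (I : Finset (Fin n)) := I → Lines K

/-- Two simplices of type `I` of the join are in the same `SL_2(R)^n`-orbit. -/
def slRel (I : Finset (Fin n)) (L L' : Tuple K n I) : Prop :=
  ∃ g : Fin n → Matrix.SpecialLinearGroup (Fin 2) R, ∀ i : I,
    (L i).1.map (Matrix.toLin' ((g i : Matrix (Fin 2) (Fin 2) R).map (algebraMap R K))) = (L' i).1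

/-- The cells of type `I` of the quotient `Δ(𝒮(K))/𝒮(R)` for `𝒮 = SL_2 × ⋯ × SL_2`. -/
abbrev SCells (I : Finset (Fin n)) := Quot (slRel R K n I)

variable {R K n} in
/-- The face of type `J` of a cell of type `I` of `Δ(𝒮(K))/𝒮(R)`. -/
def SCells.face {I J : Finset (Fin n)} (h : J ⊆ I) : SCells R K n I → SCells R K n J :=
  Quot.map (fun L j => L ⟨j.1, h j.2⟩) (by
    rintro L L' ⟨g, hg⟩
    exact ⟨g, fun j => hg ⟨j.1, h j.2⟩⟩)

end Pool.Agent.Helper64_Sp
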