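import Pool.Agent.Helper64_Sp.Defs

/-!
# Symplectic frames of the lattice `R^{2n}`
-/

set_option autoImplicit false
set_option linter.unusedSectionVars false

open Matrix
open scoped nonZeroDivisors
open FractionalIdeal

namespace Pool.Agent.Helper64_Sp

variable {R K : Type*} [CommRing R] [IsDedekindDomain R] [Field K] [Algebra R K]
  [IsFractionRing R K] {n : ℕ}

/-- The ambient space. -/
abbrev Vc (K : Type*) (n : ℕ) := Fin n ⊕ Fin n → K

theorem om_apply (x y : Vc K n) :
    om K n x y = ∑ i, (x (Sum.inr i) * y (Sum.inl i) - x (Sum.inl i) * y (Sum.inr i)) := by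
  rw [om, Matrix.toBilin'_apply']
  simp only [dotProduct, Matrix.mulVec, Matrix.J, Fintype.sum_sum_type, fromBlocks_apply₁₁,
    fromBlocks_apply₁₂, fromBlocks_apply₂₁, fromBlocks_apply₂₂, Matrix.zero_apply, zero_mul,
    Finset.sum_const_zero, zero_add, add_zero, Matrix.neg_apply, Matrix.one_apply, neg_mul,
    ite_mul, one_mul, Finset.sum_neg_distrib, Finset.sum_ite_eq, Finset.mem_univ, if_true,
    Finset.sum_sub_distrib, mul_neg]
  ring

theorem om_self (x : Vc K n) : om K n x x = 0 := by
  rw [om_apply]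
  exact Finset.sum_eq_zero fun i _ => by ring

theorem om_neg (x y : Vc K n) : om K n x y = -om K n y x := by
  rw [om_apply, om_apply, ← Finset.sum_neg_distrib]
  exact Finset.sum_congr rfl fun i _ => by ring

variable (R) in
/-- The lattice `R^{2n}`. -/
def IsInt (x : Vc K n) : Prop := ∀ j, x j ∈ (1 : FractionalIdeal R⁰ K)

theorem IsInt.add {x y : Vc K n} (hx : IsInt R x) (hy : IsInt R y) : IsInt R (x + y) :=
  fun j => Submodule.add_mem _ (hx j) (hy j)

theorem IsInt.sub {x y : Vc K n} (hx : IsInt R x) (hy : IsInt R y) : IsInt R (x - y) :=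
  fun j => Submodule.sub_mem _ (hx j) (hy j)

theorem IsInt.sum {ι : Type*} {s : Finset ι} {x : ι → Vc K n} (hx : ∀ i ∈ s, IsInt R (x i)) :
    IsInt R (∑ i ∈ s, x i) := by
  intro j
  rw [Finset.sum_apply]
  exact Submodule.sum_mem _ fun i hi => hx i hi j

variable (R) in
/-- The fractional ideal generated by the coordinates of a vector. -/
noncomputable def fid (x : Vc K n) : FractionalIdeal R⁰ K := ∑ j, spanSingleton R⁰ (x j)

theorem spanSingleton_le_sum {ι : Type*} (s : Finset ι) (g : ι → K) {j : ι} (hj : j ∈ s) :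
    spanSingleton R⁰ (g j) ≤ ∑ i ∈ s, spanSingleton R⁰ (g i) :=
  Finset.single_le_sum (f := fun i => spanSingleton R⁰ (g i)) (fun _ _ => zero_le _) hj

theorem mem_fid (x : Vc K n) (j) : x j ∈ fid R x :=
  spanSingleton_le_sum Finset.univ x (Finset.mem_univ j) (mem_spanSingleton_self _ _)

theorem fid_ne_zero {x : Vc K n} (hx : x ≠ 0) : fid R x ≠ 0 := by
  intro h
  apply hx
  ext j
  have h0 := mem_fid (R := R) x j
  rw [h] at h0
  exact (mem_zero_iff R⁰).1 h0

/-- `x ∈ I * J` for a finite sum. -/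
theorem exists_of_mem_sum_mul {ι : Type*} (s : Finset ι) (g : ι → K) (J : FractionalIdeal R⁰ K)
    (z : K) (hz : z ∈ (∑ i ∈ s, spanSingleton R⁰ (g i)) * J) :
    ∃ y : ι → K, (∀ i, y i ∈ J) ∧ ∑ i ∈ s, g i * y i = z := by
  classical
  induction s using Finset.induction_on generalizing z with
  | empty =>
    refine ⟨fun _ => 0, fun _ => Submodule.zero_mem _, ?_⟩
    rw [Finset.sum_empty, zero_mul] at hz
    rw [(mem_zero_iff R⁰).1 hz, Finset.sum_empty]
  | insert a s ha ih =>
    rw [Finset.sum_insert ha, add_mul, mem_add] at hz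
    obtain ⟨p, hp, q, hq, rfl⟩ := hz
    obtain ⟨y, hy, hyq⟩ := ih q hq
    rw [mem_singleton_mul] at hp
    obtain ⟨c, hc, rfl⟩ := hp
    refine ⟨Function.update y a c, ?_, ?_⟩
    · intro i
      by_cases h : i = a
      · subst h; simpa using hc
      · rw [Function.update_of_ne h]; exact hy i
    · rw [Finset.sum_insert ha, Function.update_self]
      congr 1
      rw [← hyq]
      refine Finset.sum_congr rfl fun i hi => ?_
      rw [Function.update_of_ne (fun h : i = a => ha (h ▸ hi))]

theorem om_mem {I : FractionalIdeal R⁰ K} {x y : Vc K n} (hx : IsInt R x) (hy : ∀ j, y j ∈ I) :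
    om K n x y ∈ I := by
  rw [om_apply]
  refine Submodule.sum_mem _ fun i _ => Submodule.sub_mem _ ?_ ?_
  · have := mul_mem_mul (hx (Sum.inr i)) (hy (Sum.inl i))
    rwa [one_mul] at this
  · have := mul_mem_mul (hx (Sum.inl i)) (hy (Sum.inr i))
    rwa [one_mul] at this

theorem IsInt.smul {x : Vc K n} (hx : IsInt R x) {a : K} (ha : a ∈ (1 : FractionalIdeal R⁰ K)) :
    IsInt R (a • x) := by
  intro j
  have := mul_mem_mul ha (hx j)
  rwa [one_mul] at this

/-- A partial symplectic frame of the lattice: `m` hyperbolic planes `I_j e_j ⊕ I_j⁻¹ f_j` which are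
orthogonal direct summands of `R^{2n}`. -/
structure PF (m : ℕ) (e f : ℕ → Vc K n) (I : ℕ → FractionalIdeal R⁰ K) : Prop where
  ee : ∀ j < m, ∀ k < m, om K n (e j) (e k) = 0
  ff : ∀ j < m, ∀ k < m, om K n (f j) (f k) = 0
  ef : ∀ j < m, ∀ k < m, om K n (e j) (f k) = if j = k then 1 else 0
  ne : ∀ j < m, I j ≠ 0
  ce : ∀ j < m, ∀ x, IsInt R x → om K n x (f j) ∈ I j
  cf : ∀ j < m, ∀ x, IsInt R x → om K n (e j) x ∈ (I j)⁻¹
  le : ∀ j < m, ∀ a ∈ I j, IsInt R (a • e j)
  lf : ∀ j < m, ∀ a ∈ (I j)⁻¹, IsInt R (a • f j)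

namespace PF

variable {m : ℕ} {e f : ℕ → Vc K n} {I : ℕ → FractionalIdeal R⁰ K}

theorem fe (h : PF m e f I) {j k : ℕ} (hj : j < m) (hk : k < m) :
    om K n (f j) (e k) = if j = k then -1 else 0 := by
  rw [om_neg, h.ef k hk j hj]
  by_cases hjk : j = k
  · subst hjk; simp
  · rw [if_neg (fun h => hjk h.symm), if_neg hjk, neg_zero]

/-- The component of a vector in the span of the first `m` planes. -/
noncomputable def proj (m : ℕ) (e f : ℕ → Vc K n) (x : Vc K n) : Vc K n :=
  ∑ j ∈ Finset.range m, (om K n x (f j) • e j + om K n (e j) x • f j)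

theorem om_proj_e (h : PF m e f I) (x : Vc K n) {k : ℕ} (hk : k < m) :
    om K n (e k) (proj m e f x) = om K n (e k) x := by
  rw [proj, map_sum, Finset.sum_eq_single k]
  · rw [map_add, map_smul, map_smul, h.ee k hk k hk, h.ef k hk k hk]
    simp
  · intro j hj hjk
    rw [Finset.mem_range] at hj
    rw [map_add, map_smul, map_smul, h.ee k hk j hj, h.ef k hk j hj, if_neg hjk.symm]
    simp
  · intro hk'
    exact absurd (Finset.mem_range.2 hk) hk'

theorem om_proj_f (h : PF m e f I) (x : Vc K n) {k : ℕ} (hk : k < m) :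
    om K n (proj m e f x) (f k) = om K n x (f k) := by
  rw [om_neg, proj, map_sum, Finset.sum_eq_single k]
  · rw [map_add, map_smul, map_smul, h.fe hk hk, h.ff k hk k hk]
    simp
  · intro j hj hjk
    rw [Finset.mem_range] at hj
    rw [map_add, map_smul, map_smul, h.fe hk hj, h.ff k hk j hj, if_neg hjk.symm]
    simp
  · intro hk'
    exact absurd (Finset.mem_range.2 hk) hk'

theorem isInt_proj (h : PF m e f I) {x : Vc K n} (hx : IsInt R x) : IsInt R (proj m e f x) := by
  rw [proj]
  refine IsInt.sum fun j hj => ?_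
  rw [Finset.mem_range] at hj
  exact (h.le j hj _ (h.ce j hj x hx)).add (h.lf j hj _ (h.cf j hj x hx))

/-- Adding one more plane. -/
theorem step (h : PF m e f I) {v : Vc K n} (hv : v ≠ 0) (hev : ∀ j < m, om K n (e j) v = 0)
    (hvf : ∀ j < m, om K n v (f j) = 0) :
    ∃ (w : Vc K n) (J : FractionalIdeal R⁰ K),
      PF (m + 1) (Function.update e m v) (Function.update f m w) (Function.update I m J) := by
  have hJ := fid_ne_zero (R := R) hv
  set J : FractionalIdeal R⁰ K := fid R v with hJdef
  obtain ⟨y, hy, hy1⟩ := exists_of_mem_sum_mul (R := R) Finset.univ v J⁻¹ 1 (by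
    have : (∑ i, spanSingleton R⁰ (v i)) = J := rfl
    rw [this, mul_inv_cancel₀ hJ]
    exact one_mem_one _)
  -- the dual vector
  let w0 : Vc K n := Sum.elim (fun i => y (Sum.inr i)) (fun i => -y (Sum.inl i))
  have hw0 : om K n v w0 = 1 := by
    rw [om_apply, ← hy1, Fintype.sum_sum_type, ← Finset.sum_add_distrib]
    refine Finset.sum_congr rfl fun i _ => ?_
    simp only [w0, Sum.elim_inl, Sum.elim_inr]
    ring
  have hw0m : ∀ j, w0 j ∈ J⁻¹ := by
    rintro (i | i)
    · exact hy _
    · exact Submodule.neg_mem _ (hy _)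
  let w : Vc K n := w0 - proj m e f w0
  have hproj : ∀ x : Vc K n, ∀ c : K, proj m e f (c • x) = c • proj m e f x := by
    intro x c
    simp only [proj, map_smul, LinearMap.smul_apply, smul_eq_mul, Finset.smul_sum, smul_add,
      smul_smul]
  have hwJ : ∀ b ∈ J, IsInt R (b • w) := by
    intro b hb
    have h1 : IsInt R (b • w0) := by
      intro j
      have := mul_mem_mul hb (hw0m j)
      rwa [mul_inv_cancel₀ hJ] at this
    have h2 : b • w = b • w0 - proj m e f (b • w0) := by
      rw [hproj]; exact smul_sub _ _ _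
    rw [h2]
    exact h1.sub (h.isInt_proj h1)
  have hvproj : ∀ x : Vc K n, om K n v (proj m e f x) = 0 := by
    intro x
    rw [proj, map_sum]
    refine Finset.sum_eq_zero fun j hj => ?_
    rw [Finset.mem_range] at hj
    rw [map_add, map_smul, map_smul, hvf j hj, om_neg v (e j), hev j hj]
    simp
  have hvw : om K n v w = 1 := by
    rw [map_sub, hvproj, hw0, sub_zero]
  have hew : ∀ j < m, om K n (e j) w = 0 := by
    intro j hj
    rw [map_sub, h.om_proj_e w0 hj, sub_self]
  have hwf : ∀ j < m, om K n w (f j) = 0 := by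
    intro j hj
    rw [map_sub, LinearMap.sub_apply, h.om_proj_f w0 hj, sub_self]
  refine ⟨w, J⁻¹, ?_⟩
  have hE : ∀ j < m, Function.update e m v j = e j := fun j hj =>
    Function.update_of_ne (ne_of_lt hj) _ _
  have hF : ∀ j < m, Function.update f m w j = f j := fun j hj =>
    Function.update_of_ne (ne_of_lt hj) _ _
  have hI : ∀ j < m, Function.update I m J⁻¹ j = I j := fun j hj =>
    Function.update_of_ne (ne_of_lt hj) _ _
  refine ⟨?_, ?_, ?_, ?_, ?_, ?_, ?_, ?_⟩
  · intro j hj k hk
    rcases Nat.lt_succ_iff_lt_or_eq.1 hj with hj | rfl <;>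
      rcases Nat.lt_succ_iff_lt_or_eq.1 hk with hk | rfl
    · rw [hE j hj, hE k hk]; exact h.ee j hj k hk
    · rw [hE j hj, Function.update_self]; exact hev j hj
    · rw [hE k hk, Function.update_self, om_neg, hev k hk, neg_zero]
    · rw [om_self]
  · intro j hj k hk
    rcases Nat.lt_succ_iff_lt_or_eq.1 hj with hj | rfl <;>
      rcases Nat.lt_succ_iff_lt_or_eq.1 hk with hk | rfl
    · rw [hF j hj, hF k hk]; exact h.ff j hj k hk
    · rw [hF j hj, Function.update_self, om_neg, hwf j hj, neg_zero]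
    · rw [hF k hk, Function.update_self, hwf k hk]
    · rw [om_self]
  · intro j hj k hk
    rcases Nat.lt_succ_iff_lt_or_eq.1 hj with hj | rfl <;>
      rcases Nat.lt_succ_iff_lt_or_eq.1 hk with hk | rfl
    · rw [hE j hj, hF k hk]; exact h.ef j hj k hk
    · rw [hE j hj, Function.update_self, hew j hj, if_neg (ne_of_lt hj)]
    · rw [hF k hk, Function.update_self, hvf k hk, if_neg (ne_of_gt hk)]
    · rw [Function.update_self, Function.update_self, hvw, if_pos rfl]
  · intro j hj
    rcases Nat.lt_succ_iff_lt_or_eq.1 hj with hj | rfl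
    · rw [hI j hj]; exact h.ne j hj
    · rw [Function.update_self]; exact inv_ne_zero hJ
  · intro j hj x hx
    rcases Nat.lt_succ_iff_lt_or_eq.1 hj with hj | rfl
    · rw [hI j hj, hF j hj]; exact h.ce j hj x hx
    · rw [Function.update_self, Function.update_self, mem_inv_iff hJ]
      intro b hb
      have h3 : om K n x w * b = om K n x (b • w) := by
        rw [map_smul, smul_eq_mul, mul_comm]
      rw [h3]
      exact om_mem hx (hwJ b hb)
  · intro j hj x hx
    rcases Nat.lt_succ_iff_lt_or_eq.1 hj with hj | rfl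
    · rw [hI j hj, hE j hj]; exact h.cf j hj x hx
    · rw [Function.update_self, Function.update_self, inv_inv, om_neg]
      exact Submodule.neg_mem _ (om_mem hx (mem_fid v))
  · intro j hj a ha
    rcases Nat.lt_succ_iff_lt_or_eq.1 hj with hj | rfl
    · rw [hE j hj]; rw [hI j hj] at ha; exact h.le j hj a ha
    · rw [Function.update_self] at ha ⊢
      intro k
      have := mul_mem_mul ha (mem_fid (R := R) v k)
      rwa [inv_mul_cancel₀ hJ] at this
  · intro j hj a ha
    rcases Nat.lt_succ_iff_lt_or_eq.1 hj with hj | rfl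
    · rw [hF j hj]; rw [hI j hj] at ha; exact h.lf j hj a ha
    · rw [Function.update_self] at ha ⊢
      rw [inv_inv] at ha
      exact hwJ a ha

end PF

end Pool.Agent.Helper64_Sp
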