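import Pool.Agent.Helper64_Sp.Steinitz

/-!
# The natural map is an isomorphism
-/

set_option autoImplicit false
set_option linter.unusedSectionVars false

open Matrix
open scoped nonZeroDivisors
open FractionalIdeal

namespace Pool.Agent.Helper64_Sp

variable {R K : Type*} [CommRing R] [IsDedekindDomain R] [Field K] [Algebra R K]
  [IsFractionRing R K] {n : ℕ}

theorem kl_one : kl (1 : FractionalIdeal R⁰ K) = 1 := by
  have h := kl_mul (R := R) (K := K) one_ne_zero one_ne_zero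
  rw [mul_one] at h
  exact (mul_eq_left.1 h.symm)

theorem kl_inv {P : FractionalIdeal R⁰ K} (hP : P ≠ 0) : kl P⁻¹ = (kl P)⁻¹ := by
  rw [eq_inv_iff_mul_eq_one, ← kl_mul (inv_ne_zero hP) hP, inv_mul_cancel₀ hP, kl_one]

theorem iso_mk_iff {T : Finset (Fin n)} (F : Flag K n T) (L : Tuple K n T) :
    iso R K n T (Quot.mk _ F) = Quot.mk _ L ↔
      ∀ i : T, Nonempty (cap R (F.W i) ≃ₗ[R]
        (Fin ((i : Fin n) : ℕ) → R) × cap R (L i).1) := by
  have h1 : iso R K n T (Quot.mk _ F) = Quot.mk _ L ↔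
      ∀ i : T, clS R F i = (Helper48_PGL.clsL R (L i))⁻¹ := by
    rw [iso, Equiv.trans_apply, Equiv.symm_apply_eq]
    exact funext_iff
  rw [h1]
  refine forall_congr' fun i => ?_
  obtain ⟨P, hP, hPF, ⟨φ⟩⟩ := flag_equiv (R := R) F i
  obtain ⟨ψ⟩ := line_equiv (R := R) (L i)
  have hQ0 := Helper48_PGL.fid_ne_zero (R := R) (Helper48_PGL.rep_ne_zero (L i))
  have hQ := inv_ne_zero hQ0
  have h2 : (Helper48_PGL.clsL R (L i))⁻¹ =
      kl (Helper48_PGL.fid R (Helper48_PGL.rep (L i)))⁻¹ := by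
    rw [kl_inv hQ0, kl_eq hQ0]
    rfl
  rw [h2, ← hPF, kl_eq_iff hP hQ]
  constructor
  · intro h
    obtain ⟨θ⟩ := h.nonempty_equiv
    exact ⟨φ.trans ((LinearEquiv.refl R _).prodCongr (θ.trans ψ.symm))⟩
  · rintro ⟨θ⟩
    exact cancel hP hQ ⟨(φ.symm.trans θ).trans ((LinearEquiv.refl R _).prodCongr ψ)⟩

end Pool.Agent.Helper64_Sp
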