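import Pool.Agent.Helper64_Sp.Moves

/-!
# The move on two consecutive planes
-/

set_option autoImplicit false
set_option linter.unusedSectionVars false

open Matrix
open scoped nonZeroDivisors
open FractionalIdeal

namespace Pool.Agent.Helper64_Sp

variable {R K : Type*} [CommRing R] [IsDedekindDomain R] [Field K] [Algebra R K]
  [IsFractionRing R K] {n : ℕ}

theorem mem_of_mul_eq {P Q S : FractionalIdeal R⁰ K} (h : P * Q = S) {p q : K} (hp : p ∈ P)
    (hq : q ∈ Q) : p * q ∈ S := by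
  subst h
  exact mul_mem_mul hp hq

/-- Replacing the values at `m` and `m + 1`. -/
def upd2 {α : Type*} (g : ℕ → α) (m : ℕ) (x y : α) : ℕ → α :=
  Function.update (Function.update g m x) (m + 1) y

theorem upd2_m {α : Type*} (g : ℕ → α) (m : ℕ) (x y : α) : upd2 g m x y m = x := by
  rw [upd2, Function.update_of_ne (by omega), Function.update_self]

theorem upd2_m1 {α : Type*} (g : ℕ → α) (m : ℕ) (x y : α) : upd2 g m x y (m + 1) = y := by
  rw [upd2, Function.update_self]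

theorem upd2_ne {α : Type*} (g : ℕ → α) (m : ℕ) (x y : α) {j : ℕ} (h1 : j ≠ m)
    (h2 : j ≠ m + 1) : upd2 g m x y j = g j := by
  rw [upd2, Function.update_of_ne h2, Function.update_of_ne h1]

namespace PF

variable {m : ℕ} {e f e' f' : ℕ → Vc K n} {I I' : ℕ → FractionalIdeal R⁰ K}

/-- Move A: redistributing the ideals of two consecutive planes. -/
theorem moveA (h : PF n e f I) (hm : m + 1 < n) {J : FractionalIdeal R⁰ K} (hJ : J ≠ 0) :
    ∃ u v a b : K,
      PF n (upd2 e m (u • e m + v • e (m + 1)) (a • e (m + 1) - b • e m))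
        (upd2 f m (a • f m + b • f (m + 1)) (u • f (m + 1) - v • f m))
        (upd2 I m J (I m * I (m + 1) * J⁻¹)) := by
  have hm0 : m < n := by omega
  have hI := h.ne m hm0
  have hI' := h.ne (m + 1) hm
  obtain ⟨u, hu, v, hv, a, ha, b, hb, huv⟩ := exists_one_sum
    (A := I m * J⁻¹) (B := I (m + 1) * J⁻¹) (mul_ne_zero hI (inv_ne_zero hJ))
    (mul_ne_zero hI' (inv_ne_zero hJ))
  have hai : (I m * J⁻¹)⁻¹ = (I m)⁻¹ * J := by rw [mul_inv, inv_inv]
  have hbi : (I (m + 1) * J⁻¹)⁻¹ = (I (m + 1))⁻¹ * J := by rw [mul_inv, inv_inv]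
  rw [hai] at ha
  rw [hbi] at hb
  have hJi : (I m * I (m + 1) * J⁻¹)⁻¹ = (I m)⁻¹ * (I (m + 1))⁻¹ * J := by
    rw [mul_inv, mul_inv, inv_inv]
  have hne : m ≠ m + 1 := by omega
  have tri : ∀ j, j = m ∨ j = m + 1 ∨ (j ≠ m ∧ j ≠ m + 1) := by intro j; omega
  refine ⟨u, v, a, b, ?_⟩
  refine ⟨?_, ?_, ?_, ?_, ?_, ?_, ?_, ?_⟩
  · intro j hj k hk
    rcases tri j with rfl | rfl | ⟨j1, j2⟩ <;> rcases tri k with h3 | h3 | ⟨k1, k2⟩ <;>
      (try subst h3) <;>
      simp only [upd2_m, upd2_m1, upd2_ne, map_add, map_sub, map_smul, LinearMap.add_apply,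
        LinearMap.sub_apply, LinearMap.smul_apply, h.ee, smul_eq_mul, mul_zero, add_zero,
        sub_zero, *, Ne, not_false_eq_true]
  · intro j hj k hk
    rcases tri j with rfl | rfl | ⟨j1, j2⟩ <;> rcases tri k with h3 | h3 | ⟨k1, k2⟩ <;>
      (try subst h3) <;>
      simp only [upd2_m, upd2_m1, upd2_ne, map_add, map_sub, map_smul, LinearMap.add_apply,
        LinearMap.sub_apply, LinearMap.smul_apply, h.ff, smul_eq_mul, mul_zero, add_zero,
        sub_zero, *, Ne, not_false_eq_true]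
  · intro j hj k hk
    have f11 : om K n (e m) (f m) = 1 := by rw [h.ef m hm0 m hm0, if_pos rfl]
    have f12 : om K n (e m) (f (m + 1)) = 0 := by rw [h.ef m hm0 _ hm, if_neg hne]
    have f21 : om K n (e (m + 1)) (f m) = 0 := by rw [h.ef _ hm m hm0, if_neg hne.symm]
    have f22 : om K n (e (m + 1)) (f (m + 1)) = 1 := by rw [h.ef _ hm _ hm, if_pos rfl]
    have fk : ∀ k < n, k ≠ m → k ≠ m + 1 → om K n (e m) (f k) = 0 ∧
        om K n (e (m + 1)) (f k) = 0 ∧ om K n (e k) (f m) = 0 ∧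
        om K n (e k) (f (m + 1)) = 0 := by
      intro k hk k1 k2
      rw [h.ef m hm0 k hk, h.ef _ hm k hk, h.ef k hk m hm0, h.ef k hk _ hm,
        if_neg (Ne.symm k1), if_neg (Ne.symm k2), if_neg k1, if_neg k2]
      exact ⟨rfl, rfl, rfl, rfl⟩
    rcases tri j with j0 | j0 | ⟨j1, j2⟩ <;> rcases tri k with k0 | k0 | ⟨k1, k2⟩
    · rw [j0, k0, upd2_m, upd2_m, if_pos rfl]
      simp only [map_add, map_smul, LinearMap.add_apply, LinearMap.smul_apply, smul_eq_mul, f11,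
        f12, f21, f22]
      linear_combination huv
    · rw [j0, k0, upd2_m, upd2_m1, if_neg hne]
      simp only [map_add, map_sub, map_smul, LinearMap.add_apply, LinearMap.smul_apply,
        smul_eq_mul, f11, f12, f21, f22]
      ring
    · obtain ⟨g1, g2, g3, g4⟩ := fk k hk k1 k2
      rw [j0, upd2_m, upd2_ne _ _ _ _ k1 k2, if_neg (Ne.symm k1)]
      simp only [map_add, map_smul, LinearMap.add_apply, LinearMap.smul_apply, smul_eq_mul, g1, g2,
        mul_zero, add_zero]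
    · rw [j0, k0, upd2_m, upd2_m1, if_neg hne.symm]
      simp only [map_add, map_sub, map_smul, LinearMap.sub_apply, LinearMap.smul_apply,
        smul_eq_mul, f11, f12, f21, f22]
      ring
    · rw [j0, k0, upd2_m1, upd2_m1, if_pos rfl]
      simp only [map_sub, map_smul, LinearMap.sub_apply, LinearMap.smul_apply,
        smul_eq_mul, f11, f12, f21, f22]
      linear_combination huv
    · obtain ⟨g1, g2, g3, g4⟩ := fk k hk k1 k2
      rw [j0, upd2_m1, upd2_ne _ _ _ _ k1 k2, if_neg (Ne.symm k2)]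
      simp only [map_sub, map_smul, LinearMap.sub_apply, LinearMap.smul_apply, smul_eq_mul, g1, g2,
        mul_zero, sub_zero]
    · obtain ⟨g1, g2, g3, g4⟩ := fk j hj j1 j2
      rw [k0, upd2_m, upd2_ne _ _ _ _ j1 j2, if_neg j1]
      simp only [map_add, map_smul, smul_eq_mul, g3, g4, mul_zero, add_zero]
    · obtain ⟨g1, g2, g3, g4⟩ := fk j hj j1 j2
      rw [k0, upd2_m1, upd2_ne _ _ _ _ j1 j2, if_neg j2]
      simp only [map_sub, map_smul, smul_eq_mul, g3, g4, mul_zero, sub_zero]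
    · rw [upd2_ne _ _ _ _ j1 j2, upd2_ne _ _ _ _ k1 k2, h.ef j hj k hk]
  · intro j hj
    rcases tri j with rfl | rfl | ⟨j1, j2⟩
    · rw [upd2_m]; exact hJ
    · rw [upd2_m1]; exact mul_ne_zero (mul_ne_zero hI hI') (inv_ne_zero hJ)
    · rw [upd2_ne _ _ _ _ j1 j2]; exact h.ne j hj
  · intro j hj z hz
    have h1 := h.ce m hm0 z hz
    have h2 := h.ce (m + 1) hm z hz
    rcases tri j with rfl | rfl | ⟨j1, j2⟩
    · rw [upd2_m, upd2_m, map_add, map_smul, map_smul, smul_eq_mul, smul_eq_mul]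
      refine Submodule.add_mem _ (mem_of_mul_eq ?_ ha h1) (mem_of_mul_eq ?_ hb h2)
      · rw [mul_comm (I j)⁻¹, mul_assoc, inv_mul_cancel₀ hI, mul_one]
      · rw [mul_comm (I (j + 1))⁻¹, mul_assoc, inv_mul_cancel₀ hI', mul_one]
    · rw [upd2_m1, upd2_m1, map_sub, map_smul, map_smul, smul_eq_mul, smul_eq_mul]
      refine Submodule.sub_mem _ (mem_of_mul_eq ?_ hu h2) (mem_of_mul_eq ?_ hv h1)
      · rw [mul_assoc, mul_assoc, mul_comm J⁻¹]
      · rw [mul_comm (I m), mul_assoc, mul_assoc, mul_comm J⁻¹]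
    · rw [upd2_ne _ _ _ _ j1 j2, upd2_ne _ _ _ _ j1 j2]; exact h.ce j hj z hz
  · intro j hj z hz
    have h1 := h.cf m hm0 z hz
    have h2 := h.cf (m + 1) hm z hz
    rcases tri j with rfl | rfl | ⟨j1, j2⟩
    · rw [upd2_m, upd2_m, map_add, map_smul, map_smul, LinearMap.add_apply, LinearMap.smul_apply,
        LinearMap.smul_apply, smul_eq_mul, smul_eq_mul]
      refine Submodule.add_mem _ (mem_of_mul_eq ?_ hu h1) (mem_of_mul_eq ?_ hv h2)
      · rw [mul_comm (I j), mul_assoc, mul_inv_cancel₀ hI, mul_one]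
      · rw [mul_comm (I (j + 1)), mul_assoc, mul_inv_cancel₀ hI', mul_one]
    · rw [upd2_m1, upd2_m1, map_sub, map_smul, map_smul, LinearMap.sub_apply, LinearMap.smul_apply,
        LinearMap.smul_apply, smul_eq_mul, smul_eq_mul, hJi]
      refine Submodule.sub_mem _ (mem_of_mul_eq ?_ ha h2) (mem_of_mul_eq ?_ hb h1)
      · rw [mul_assoc, mul_assoc, mul_comm J]
      · rw [mul_comm (I m)⁻¹, mul_assoc, mul_assoc, mul_comm J]
    · rw [upd2_ne _ _ _ _ j1 j2, upd2_ne _ _ _ _ j1 j2]; exact h.cf j hj z hz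
  · intro j hj c hc
    rcases tri j with rfl | rfl | ⟨j1, j2⟩
    · rw [upd2_m] at hc ⊢
      rw [smul_add, smul_smul, smul_smul]
      refine (h.le j hm0 _ (mem_of_mul_eq ?_ hc hu)).add (h.le (j + 1) hm _ (mem_of_mul_eq ?_ hc hv))
      · rw [mul_comm (I j), ← mul_assoc, mul_inv_cancel₀ hJ, one_mul]
      · rw [mul_comm (I (j + 1)), ← mul_assoc, mul_inv_cancel₀ hJ, one_mul]
    · rw [upd2_m1] at hc ⊢
      rw [smul_sub, smul_smul, smul_smul]
      refine (h.le (m + 1) hm _ (mem_of_mul_eq ?_ hc ha)).sub (h.le m hm0 _ (mem_of_mul_eq ?_ hc hb))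
      · calc I m * I (m + 1) * J⁻¹ * ((I m)⁻¹ * J) = I (m + 1) * (I m * (I m)⁻¹) * (J⁻¹ * J) := by
              ring
          _ = _ := by rw [mul_inv_cancel₀ hI, inv_mul_cancel₀ hJ, mul_one, mul_one]
      · calc I m * I (m + 1) * J⁻¹ * ((I (m + 1))⁻¹ * J)
            = I m * (I (m + 1) * (I (m + 1))⁻¹) * (J⁻¹ * J) := by ring
          _ = _ := by rw [mul_inv_cancel₀ hI', inv_mul_cancel₀ hJ, mul_one, mul_one]
    · rw [upd2_ne _ _ _ _ j1 j2] at hc ⊢; exact h.le j hj c hc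
  · intro j hj c hc
    rcases tri j with rfl | rfl | ⟨j1, j2⟩
    · rw [upd2_m] at hc ⊢
      rw [smul_add, smul_smul, smul_smul]
      refine (h.lf j hm0 _ (mem_of_mul_eq ?_ hc ha)).add (h.lf (j + 1) hm _ (mem_of_mul_eq ?_ hc hb))
      · rw [mul_comm (I j)⁻¹, ← mul_assoc, inv_mul_cancel₀ hJ, one_mul]
      · rw [mul_comm (I (j + 1))⁻¹, ← mul_assoc, inv_mul_cancel₀ hJ, one_mul]
    · rw [upd2_m1] at hc ⊢
      rw [hJi] at hc
      rw [smul_sub, smul_smul, smul_smul]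
      refine (h.lf (m + 1) hm _ (mem_of_mul_eq ?_ hc hu)).sub (h.lf m hm0 _ (mem_of_mul_eq ?_ hc hv))
      · calc (I m)⁻¹ * (I (m + 1))⁻¹ * J * (I m * J⁻¹)
            = (I (m + 1))⁻¹ * (I m * (I m)⁻¹) * (J * J⁻¹) := by ring
          _ = _ := by rw [mul_inv_cancel₀ hI, mul_inv_cancel₀ hJ, mul_one, mul_one]
      · calc (I m)⁻¹ * (I (m + 1))⁻¹ * J * (I (m + 1) * J⁻¹)
            = (I m)⁻¹ * (I (m + 1) * (I (m + 1))⁻¹) * (J * J⁻¹) := by ring
          _ = _ := by rw [mul_inv_cancel₀ hI', mul_inv_cancel₀ hJ, mul_one, mul_one]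
    · rw [upd2_ne _ _ _ _ j1 j2] at hc ⊢; exact h.lf j hj c hc

end PF

end Pool.Agent.Helper64_Sp
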