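import Pool.Agent.Helper64_Sp.Adapt

/-!
# Moves between symplectic frames
-/

set_option autoImplicit false
set_option linter.unusedSectionVars false

open Matrix
open scoped nonZeroDivisors
open FractionalIdeal

namespace Pool.Agent.Helper64_Sp

variable {R K : Type*} [CommRing R] [IsDedekindDomain R] [Field K] [Algebra R K]
  [IsFractionRing R K] {n : ℕ}

/-- Two ideals: a generator which is prime to a given ideal. -/
theorem exists_one_sum {A B : FractionalIdeal R⁰ K} (hA : A ≠ 0) (hB : B ≠ 0) :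
    ∃ u ∈ A, ∃ v ∈ B, ∃ a ∈ A⁻¹, ∃ b ∈ B⁻¹, a * u + b * v = 1 := by
  obtain ⟨u, hu, hu0⟩ : ∃ u ∈ A, u ≠ 0 := by
    by_contra hcon
    push Not at hcon
    apply hA
    apply FractionalIdeal.eq_zero_iff.2
    intro x hx
    exact hcon x hx
  -- the integral ideal `u A⁻¹`
  have hle : spanSingleton R⁰ u * A⁻¹ ≤ 1 := by
    calc spanSingleton R⁰ u * A⁻¹ ≤ A * A⁻¹ := by
          gcongr
          exact (spanSingleton_le_iff_mem).2 hu
      _ = 1 := mul_inv_cancel₀ hA
  obtain ⟨p, hp⟩ := le_one_iff_exists_coeIdeal.1 hle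
  obtain ⟨c, q, hc, hq⟩ := FractionalIdeal.exists_eq_spanSingleton_mul B
  have hcK : algebraMap R K c ≠ 0 := by
    rwa [Ne, map_eq_zero_iff _ (IsFractionRing.injective R K)]
  have hp0 : p ≠ ⊥ := by
    rintro rfl
    rw [coeIdeal_bot] at hp
    have := mul_eq_zero.1 hp.symm
    rcases this with h | h
    · exact hu0 (spanSingleton_eq_zero_iff.1 h)
    · exact inv_ne_zero hA h
  have hq0 : q ≠ ⊥ := by
    rintro rfl
    rw [coeIdeal_bot, mul_zero] at hq
    exact hB hq
  have hqK : (q : FractionalIdeal R⁰ K) ≠ 0 := coeIdeal_ne_zero.2 hq0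
  obtain ⟨w, hw⟩ := IsDedekindDomain.exists_sup_span_eq (I := p * q) (J := q) Ideal.mul_le_right
    (mul_ne_zero hp0 hq0)
  have hwq : w ∈ q := by
    rw [← hw]
    exact Ideal.mem_sup_right (Ideal.mem_span_singleton_self w)
  have h1 : (1 : FractionalIdeal R⁰ K) =
      spanSingleton R⁰ u * A⁻¹ + spanSingleton R⁰ (algebraMap R K w) * (q : FractionalIdeal R⁰ K)⁻¹ := by
    have h2 : (q : FractionalIdeal R⁰ K) = (p : FractionalIdeal R⁰ K) * q +
        spanSingleton R⁰ (algebraMap R K w) := by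
      conv_lhs => rw [← hw]
      rw [coeIdeal_sup, coeIdeal_mul, coeIdeal_span_singleton]
    calc (1 : FractionalIdeal R⁰ K) = (q : FractionalIdeal R⁰ K) * (q : FractionalIdeal R⁰ K)⁻¹ :=
          (mul_inv_cancel₀ hqK).symm
      _ = ((p : FractionalIdeal R⁰ K) * q + spanSingleton R⁰ (algebraMap R K w)) *
            (q : FractionalIdeal R⁰ K)⁻¹ := by rw [← h2]
      _ = _ := by rw [add_mul, mul_assoc, mul_inv_cancel₀ hqK, mul_one, hp]
  have h3 : (1 : K) ∈ spanSingleton R⁰ u * A⁻¹ +
      spanSingleton R⁰ (algebraMap R K w) * (q : FractionalIdeal R⁰ K)⁻¹ := by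
    rw [← h1]; exact one_mem_one _
  rw [mem_add] at h3
  obtain ⟨s, hs, t, ht, hst⟩ := h3
  rw [mem_singleton_mul] at hs ht
  obtain ⟨a, ha, rfl⟩ := hs
  obtain ⟨b, hb, rfl⟩ := ht
  refine ⟨u, hu, (algebraMap R K c)⁻¹ * algebraMap R K w, ?_, a, ha, algebraMap R K c * b, ?_, ?_⟩
  · rw [hq]
    exact mul_mem_mul (mem_spanSingleton_self _ _) ((mem_coeIdeal R⁰).2 ⟨w, hwq, rfl⟩)
  · have h4 : B⁻¹ = spanSingleton R⁰ (algebraMap R K c) * (q : FractionalIdeal R⁰ K)⁻¹ := by
      rw [hq, mul_inv, spanSingleton_inv, inv_inv]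
    rw [h4]
    exact mul_mem_mul (mem_spanSingleton_self _ _) hb
  · rw [← hst]
    field_simp

namespace PF

variable {m : ℕ} {e f e' f' : ℕ → Vc K n} {I I' : ℕ → FractionalIdeal R⁰ K}

theorem mem_spn (e : ℕ → Vc K n) {i j : ℕ} (h : j ≤ i) : e j ∈ spn e i :=
  Submodule.subset_span ⟨⟨j, by omega⟩, rfl⟩

theorem spn_eq (h : PF n e f I) (h' : PF n e' f' I') {i : ℕ} (hi : i < n)
    (hsub : ∀ j ≤ i, e' j ∈ spn e i) : spn e' i = spn e i := by
  apply Submodule.eq_of_le_of_finrank_eq
  · rw [spn, Submodule.span_le]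
    rintro _ ⟨j, rfl⟩
    exact hsub j (by omega)
  · rw [h.finrank_spn hi, h'.finrank_spn hi]

/-- Replacing one hyperbolic plane. -/
theorem replace (h : PF n e f I) (hm : m < n) {x y : Vc K n} {J : FractionalIdeal R⁰ K}
    (hex : ∀ k < n, k ≠ m → om K n (e k) x = 0) (hxf : ∀ k < n, k ≠ m → om K n x (f k) = 0)
    (hey : ∀ k < n, k ≠ m → om K n (e k) y = 0) (hyf : ∀ k < n, k ≠ m → om K n y (f k) = 0)
    (hxy : om K n x y = 1) (hJ : J ≠ 0)
    (hce : ∀ z, IsInt R z → om K n z y ∈ J) (hcf : ∀ z, IsInt R z → om K n x z ∈ J⁻¹)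
    (hle : ∀ a ∈ J, IsInt R (a • x)) (hlf : ∀ a ∈ J⁻¹, IsInt R (a • y)) :
    PF n (Function.update e m x) (Function.update f m y) (Function.update I m J) := by
  have hE : ∀ j, j ≠ m → Function.update e m x j = e j := fun j hj =>
    Function.update_of_ne hj _ _
  have hF : ∀ j, j ≠ m → Function.update f m y j = f j := fun j hj =>
    Function.update_of_ne hj _ _
  have hI : ∀ j, j ≠ m → Function.update I m J j = I j := fun j hj =>
    Function.update_of_ne hj _ _
  refine ⟨?_, ?_, ?_, ?_, ?_, ?_, ?_, ?_⟩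
  · intro j hj k hk
    by_cases hjm : j = m
    · subst hjm
      by_cases hkm : k = j
      · subst hkm; exact om_self _
      · rw [hE k hkm, Function.update_self, om_neg, hex k hk hkm, neg_zero]
    · by_cases hkm : k = m
      · subst hkm; rw [hE j hjm, Function.update_self, hex j hj hjm]
      · rw [hE j hjm, hE k hkm, h.ee j hj k hk]
  · intro j hj k hk
    by_cases hjm : j = m
    · subst hjm
      by_cases hkm : k = j
      · subst hkm; exact om_self _
      · rw [hF k hkm, Function.update_self, hyf k hk hkm]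
    · by_cases hkm : k = m
      · subst hkm; rw [hF j hjm, Function.update_self, om_neg, hyf j hj hjm, neg_zero]
      · rw [hF j hjm, hF k hkm, h.ff j hj k hk]
  · intro j hj k hk
    by_cases hjm : j = m
    · subst hjm
      by_cases hkm : k = j
      · subst hkm; rw [Function.update_self, Function.update_self, if_pos rfl, hxy]
      · rw [hF k hkm, Function.update_self, hxf k hk hkm, if_neg (fun h => hkm h.symm)]
    · by_cases hkm : k = m
      · subst hkm; rw [hE j hjm, Function.update_self, hey j hj hjm, if_neg hjm]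
      · rw [hE j hjm, hF k hkm, h.ef j hj k hk]
  · intro j hj
    by_cases hjm : j = m
    · subst hjm; rw [Function.update_self]; exact hJ
    · rw [hI j hjm]; exact h.ne j hj
  · intro j hj z hz
    by_cases hjm : j = m
    · subst hjm; rw [Function.update_self, Function.update_self]; exact hce z hz
    · rw [hI j hjm, hF j hjm]; exact h.ce j hj z hz
  · intro j hj z hz
    by_cases hjm : j = m
    · subst hjm; rw [Function.update_self, Function.update_self]; exact hcf z hz
    · rw [hI j hjm, hE j hjm]; exact h.cf j hj z hz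
  · intro j hj a ha
    by_cases hjm : j = m
    · subst hjm; rw [Function.update_self] at ha ⊢; exact hle a ha
    · rw [hE j hjm]; rw [hI j hjm] at ha; exact h.le j hj a ha
  · intro j hj a ha
    by_cases hjm : j = m
    · subst hjm; rw [Function.update_self] at ha ⊢; exact hlf a ha
    · rw [hF j hjm]; rw [hI j hjm] at ha; exact h.lf j hj a ha

/-- Move S: scaling one plane. -/
theorem scale (h : PF n e f I) (hm : m < n) {c : K} (hc : c ≠ 0) :
    PF n (Function.update e m (c • e m)) (Function.update f m (c⁻¹ • f m))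
      (Function.update I m (spanSingleton R⁰ c⁻¹ * I m)) := by
  have hmemI : ∀ a ∈ spanSingleton R⁰ c⁻¹ * I m, a * c ∈ I m := by
    intro a ha
    rw [mem_singleton_mul] at ha
    obtain ⟨y, hy, rfl⟩ := ha
    have : c⁻¹ * y * c = y := by field_simp
    rwa [this]
  have hinv : (spanSingleton R⁰ c⁻¹ * I m)⁻¹ = spanSingleton R⁰ c * (I m)⁻¹ := by
    rw [mul_inv, spanSingleton_inv, inv_inv]
  refine h.replace hm ?_ ?_ ?_ ?_ ?_ ?_ ?_ ?_ ?_ ?_
  · intro k hk hkm
    rw [map_smul, h.ee k hk m hm, smul_zero]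
  · intro k hk hkm
    rw [map_smul, LinearMap.smul_apply, h.ef m hm k hk, if_neg (fun h => hkm h.symm), smul_zero]
  · intro k hk hkm
    rw [map_smul, h.ef k hk m hm, if_neg hkm, smul_zero]
  · intro k hk hkm
    rw [map_smul, LinearMap.smul_apply, h.ff m hm k hk, smul_zero]
  · rw [map_smul, map_smul, LinearMap.smul_apply, h.ef m hm m hm, if_pos rfl]
    simp only [smul_eq_mul, mul_one]
    field_simp
  · exact mul_ne_zero (spanSingleton_ne_zero_iff.2 (inv_ne_zero hc)) (h.ne m hm)
  · intro z hz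
    rw [map_smul, smul_eq_mul]
    exact mul_mem_mul (mem_spanSingleton_self _ _) (h.ce m hm z hz)
  · intro z hz
    rw [map_smul, LinearMap.smul_apply, smul_eq_mul, hinv]
    exact mul_mem_mul (mem_spanSingleton_self _ _) (h.cf m hm z hz)
  · intro a ha
    rw [smul_smul]
    exact h.le m hm _ (hmemI a ha)
  · intro a ha
    rw [hinv, mem_singleton_mul] at ha
    obtain ⟨y, hy, rfl⟩ := ha
    rw [smul_smul]
    have : c * y * c⁻¹ = y := by field_simp
    rw [this]
    exact h.lf m hm _ hy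

/-- Move B: any ideal can be reached in one plane. -/
theorem moveB (h : PF n e f I) (hm : m < n) {J : FractionalIdeal R⁰ K} (hJ : J ≠ 0) :
    ∃ x y : Vc K n,
      PF n (Function.update e m x) (Function.update f m y) (Function.update I m J) := by
  have hI := h.ne m hm
  obtain ⟨u, hu, v, hv, a, ha, b, hb, huv⟩ := exists_one_sum
    (A := I m * J⁻¹) (B := (I m)⁻¹ * J⁻¹) (mul_ne_zero hI (inv_ne_zero hJ))
    (mul_ne_zero (inv_ne_zero hI) (inv_ne_zero hJ))
  have hai : (I m * J⁻¹)⁻¹ = (I m)⁻¹ * J := by rw [mul_inv, inv_inv]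
  have hbi : ((I m)⁻¹ * J⁻¹)⁻¹ = I m * J := by rw [mul_inv, inv_inv, inv_inv]
  rw [hai] at ha
  rw [hbi] at hb
  -- products
  have key : ∀ (P Q S : FractionalIdeal R⁰ K), P * Q = S → ∀ p ∈ P, ∀ q ∈ Q, p * q ∈ S := by
    rintro P Q S rfl p hp q hq
    exact mul_mem_mul hp hq
  refine ⟨u • e m + v • f m, a • f m - b • e m, ?_⟩
  refine h.replace hm ?_ ?_ ?_ ?_ ?_ hJ ?_ ?_ ?_ ?_
  · intro k hk hkm
    rw [map_add, map_smul, map_smul, h.ee k hk m hm, h.ef k hk m hm, if_neg hkm, smul_zero,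
      smul_zero, add_zero]
  · intro k hk hkm
    rw [map_add, map_smul, map_smul, LinearMap.add_apply, LinearMap.smul_apply,
      LinearMap.smul_apply, h.ef m hm k hk, h.ff m hm k hk, if_neg (fun h => hkm h.symm), smul_zero,
      smul_zero, add_zero]
  · intro k hk hkm
    rw [map_sub, map_smul, map_smul, h.ee k hk m hm, h.ef k hk m hm, if_neg hkm, smul_zero,
      smul_zero, sub_zero]
  · intro k hk hkm
    rw [map_sub, map_smul, map_smul, LinearMap.sub_apply, LinearMap.smul_apply,
      LinearMap.smul_apply, h.ef m hm k hk, h.ff m hm k hk, if_neg (fun h => hkm h.symm), smul_zero,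
      smul_zero, sub_zero]
  · simp only [map_add, map_sub, map_smul, LinearMap.add_apply, LinearMap.smul_apply,
      h.ee m hm m hm, h.ef m hm m hm, h.fe hm hm, h.ff m hm m hm, if_pos, smul_eq_mul]
    linear_combination huv
  · intro z hz
    rw [map_sub, map_smul, map_smul, smul_eq_mul, smul_eq_mul]
    refine Submodule.sub_mem _ ?_ ?_
    · refine key _ _ _ ?_ a ha _ (h.ce m hm z hz)
      rw [mul_comm (I m)⁻¹, mul_assoc, inv_mul_cancel₀ hI, mul_one]
    · rw [om_neg z (e m), mul_neg]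
      refine Submodule.neg_mem _ (key _ _ _ ?_ b hb _ (h.cf m hm z hz))
      rw [mul_comm (I m), mul_assoc, mul_inv_cancel₀ hI, mul_one]
  · intro z hz
    rw [map_add, map_smul, map_smul, LinearMap.add_apply, LinearMap.smul_apply,
      LinearMap.smul_apply, smul_eq_mul, smul_eq_mul]
    refine Submodule.add_mem _ ?_ ?_
    · refine key _ _ _ ?_ u hu _ (h.cf m hm z hz)
      rw [mul_comm (I m), mul_assoc, mul_inv_cancel₀ hI, mul_one]
    · rw [om_neg (f m) z, mul_neg]
      refine Submodule.neg_mem _ (key _ _ _ ?_ v hv _ (h.ce m hm z hz))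
      rw [mul_comm (I m)⁻¹, mul_assoc, inv_mul_cancel₀ hI, mul_one]
  · intro c hc
    rw [smul_add, smul_smul, smul_smul]
    refine (h.le m hm _ ?_).add (h.lf m hm _ ?_)
    · refine key _ _ _ ?_ c hc _ hu
      rw [mul_comm (I m), ← mul_assoc, mul_inv_cancel₀ hJ, one_mul]
    · refine key _ _ _ ?_ c hc _ hv
      rw [mul_comm (I m)⁻¹, ← mul_assoc, mul_inv_cancel₀ hJ, one_mul]
  · intro c hc
    rw [smul_sub, smul_smul, smul_smul]
    refine (h.lf m hm _ ?_).sub (h.le m hm _ ?_)
    · refine key _ _ _ ?_ c hc _ ha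
      rw [mul_comm (I m)⁻¹, ← mul_assoc, inv_mul_cancel₀ hJ, one_mul]
    · refine key _ _ _ ?_ c hc _ hb
      rw [mul_comm (I m), ← mul_assoc, inv_mul_cancel₀ hJ, one_mul]

end PF

end Pool.Agent.Helper64_Sp
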