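import Pool.Agent.Helper64_Sp.MoveA

/-!
# Frames with prescribed ideals
-/

set_option autoImplicit false
set_option linter.unusedSectionVars false

open Matrix
open scoped nonZeroDivisors
open FractionalIdeal

namespace Pool.Agent.Helper64_Sp

variable {R K : Type*} [CommRing R] [IsDedekindDomain R] [Field K] [Algebra R K]
  [IsFractionRing R K] {n : ℕ}

/-- Equality of fractional ideals up to a principal one. -/
def Sim (P Q : FractionalIdeal R⁰ K) : Prop := ∃ c : K, c ≠ 0 ∧ spanSingleton R⁰ c * P = Q

theorem Sim.trans {P Q S : FractionalIdeal R⁰ K} (h : Sim P Q) (h' : Sim Q S) : Sim P S := by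
  obtain ⟨c, hc, rfl⟩ := h
  obtain ⟨d, hd, rfl⟩ := h'
  exact ⟨d * c, mul_ne_zero hd hc, by rw [← spanSingleton_mul_spanSingleton, mul_assoc]⟩

theorem Sim.symm {P Q : FractionalIdeal R⁰ K} (h : Sim P Q) : Sim Q P := by
  obtain ⟨c, hc, rfl⟩ := h
  refine ⟨c⁻¹, inv_ne_zero hc, ?_⟩
  rw [← mul_assoc, spanSingleton_mul_spanSingleton, inv_mul_cancel₀ hc, spanSingleton_one, one_mul]

theorem prod_upd2 (g : ℕ → FractionalIdeal R⁰ K) (m : ℕ) (x y : FractionalIdeal R⁰ K)
    (hxy : x * y = g m * g (m + 1)) {i : ℕ} (hi : m + 1 ≤ i) :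
    ∏ j ∈ Finset.range (i + 1), upd2 g m x y j = ∏ j ∈ Finset.range (i + 1), g j := by
  induction i, hi using Nat.le_induction with
  | base =>
    rw [Finset.prod_range_succ, Finset.prod_range_succ, Finset.prod_range_succ (n := m + 1),
      Finset.prod_range_succ (n := m), upd2_m, upd2_m1, mul_assoc, hxy, ← mul_assoc]
    congr 2
    refine Finset.prod_congr rfl fun j hj => ?_
    rw [Finset.mem_range] at hj
    exact upd2_ne _ _ _ _ (by omega) (by omega)
  | succ i hi ih =>
    rw [Finset.prod_range_succ, ih, Finset.prod_range_succ (n := i + 1),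
      upd2_ne _ _ _ _ (by omega) (by omega)]

namespace PF

variable {m : ℕ} {e f e' f' : ℕ → Vc K n} {I I' : ℕ → FractionalIdeal R⁰ K}

theorem exists_normal {T : Finset (Fin n)} (F : Flag K n T) {J : ℕ → FractionalIdeal R⁰ K}
    (hJ : ∀ j < n, J j ≠ 0) (h : PF n e f I) (ha : Adapted F e)
    (hs : ∀ i : T, Sim (∏ j ∈ Finset.range (((i : Fin n) : ℕ) + 1), I j)
      (∏ j ∈ Finset.range (((i : Fin n) : ℕ) + 1), J j)) (m : ℕ) (hm : m ≤ n) :
    ∃ (e' f' : ℕ → Vc K n) (I' : ℕ → FractionalIdeal R⁰ K), PF n e' f' I' ∧ Adapted F e' ∧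
      (∀ i : T, Sim (∏ j ∈ Finset.range (((i : Fin n) : ℕ) + 1), I' j)
        (∏ j ∈ Finset.range (((i : Fin n) : ℕ) + 1), J j)) ∧ ∀ j < m, I' j = J j := by
  induction m with
  | zero => exact ⟨e, f, I, h, ha, hs, fun j hj => absurd hj (by omega)⟩
  | succ m ih =>
    clear h ha hs
    obtain ⟨e, f, I, h, ha, hs, hIJ⟩ := ih (by omega)
    by_cases hT : (⟨m, hm⟩ : Fin n) ∈ T
    · -- the ideal at `m` has the right class
      obtain ⟨c, hc, hcs⟩ := hs ⟨⟨m, hm⟩, hT⟩
      simp only [Finset.prod_range_succ] at hcs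
      have hQ : ∏ j ∈ Finset.range m, I j = ∏ j ∈ Finset.range m, J j :=
        Finset.prod_congr rfl fun j hj => hIJ j (Finset.mem_range.1 hj)
      have hQ0 : ∏ j ∈ Finset.range m, J j ≠ 0 :=
        Finset.prod_ne_zero_iff.2 fun j hj => hJ j (by have := Finset.mem_range.1 hj; omega)
      have hcI : spanSingleton R⁰ c * I m = J m := by
        rw [hQ] at hcs
        apply mul_left_cancel₀ hQ0
        rw [← hcs]; ring
      have h' := h.scale hm (inv_ne_zero hc)
      rw [inv_inv, hcI] at h'
      refine ⟨_, _, _, h', ?_, ?_, ?_⟩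
      · intro i
        rw [ha i]
        symm
        apply h.spn_eq h' i.1.2
        intro j hj
        by_cases hjm : j = m
        · rw [hjm, Function.update_self]
          exact Submodule.smul_mem _ _ (mem_spn e (by omega))
        · rw [Function.update_of_ne hjm]; exact mem_spn e hj
      · intro i
        by_cases hi : m ≤ ((i : Fin n) : ℕ)
        · refine Sim.trans (Sim.symm ⟨c, hc, ?_⟩) (hs i)
          have hmem : m ∈ Finset.range (((i : Fin n) : ℕ) + 1) := Finset.mem_range.2 (by omega)
          rw [Finset.prod_update_of_mem hmem, ← hcI,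
            Finset.prod_eq_mul_prod_sdiff_singleton_of_mem hmem, mul_assoc]
        · rw [show ∏ j ∈ Finset.range (((i : Fin n) : ℕ) + 1), Function.update I m (J m) j =
              ∏ j ∈ Finset.range (((i : Fin n) : ℕ) + 1), I j from
            Finset.prod_congr rfl fun j hj => by
              rw [Finset.mem_range] at hj
              exact Function.update_of_ne (by omega) _ _]
          exact hs i
      · intro j hj
        rcases Nat.lt_succ_iff_lt_or_eq.1 hj with hj | rfl
        · rw [Function.update_of_ne (by omega)]; exact hIJ j hj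
        · rw [Function.update_self]
    · have hiT : ∀ i : T, ((i : Fin n) : ℕ) ≠ m := by
        intro i him
        apply hT
        have : (⟨m, hm⟩ : Fin n) = i := Fin.ext him.symm
        rw [this]; exact i.2
      by_cases hmn : m + 1 < n
      · obtain ⟨u, v, a, b, h'⟩ := h.moveA hmn (hJ m hm)
        refine ⟨_, _, _, h', ?_, ?_, ?_⟩
        · intro i
          rw [ha i]
          symm
          apply h.spn_eq h' i.1.2
          intro j hj
          have hi := hiT i
          by_cases hjm : j = m
          · rw [hjm, upd2_m]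
            exact Submodule.add_mem _ (Submodule.smul_mem _ _ (mem_spn e (by omega)))
              (Submodule.smul_mem _ _ (mem_spn e (by omega)))
          · by_cases hjm' : j = m + 1
            · rw [hjm', upd2_m1]
              exact Submodule.sub_mem _ (Submodule.smul_mem _ _ (mem_spn e (by omega)))
                (Submodule.smul_mem _ _ (mem_spn e (by omega)))
            · rw [upd2_ne _ _ _ _ hjm hjm']; exact mem_spn e hj
        · intro i
          have hi := hiT i
          by_cases hi' : m + 1 ≤ ((i : Fin n) : ℕ)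
          · rw [prod_upd2 _ _ _ _ _ hi']
            · exact hs i
            · rw [mul_comm (J m), mul_assoc, inv_mul_cancel₀ (hJ m hm), mul_one]
          · rw [show ∏ j ∈ Finset.range (((i : Fin n) : ℕ) + 1),
                upd2 I m (J m) (I m * I (m + 1) * (J m)⁻¹) j =
                ∏ j ∈ Finset.range (((i : Fin n) : ℕ) + 1), I j from
              Finset.prod_congr rfl fun j hj => by
                rw [Finset.mem_range] at hj
                exact upd2_ne _ _ _ _ (by omega) (by omega)]
            exact hs i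
        · intro j hj
          rcases Nat.lt_succ_iff_lt_or_eq.1 hj with hj | rfl
          · rw [upd2_ne _ _ _ _ (by omega) (by omega)]; exact hIJ j hj
          · rw [upd2_m]
      · obtain ⟨x, y, h'⟩ := h.moveB hm (hJ m hm)
        refine ⟨_, _, _, h', ?_, ?_, ?_⟩
        · intro i
          rw [ha i]
          symm
          apply h.spn_eq h' i.1.2
          intro j hj
          have hi := hiT i
          have hi2 := i.1.2
          rw [Function.update_of_ne (by omega)]; exact mem_spn e hj
        · intro i
          have hi := hiT i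
          have hi2 := i.1.2
          rw [show ∏ j ∈ Finset.range (((i : Fin n) : ℕ) + 1), Function.update I m (J m) j =
              ∏ j ∈ Finset.range (((i : Fin n) : ℕ) + 1), I j from
            Finset.prod_congr rfl fun j hj => by
              rw [Finset.mem_range] at hj
              exact Function.update_of_ne (by omega) _ _]
          exact hs i
        · intro j hj
          rcases Nat.lt_succ_iff_lt_or_eq.1 hj with hj | rfl
          · rw [Function.update_of_ne (by omega)]; exact hIJ j hj
          · rw [Function.update_self]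

/-! ### Independence of the frame -/

theorem prod_mem_prod {ι : Type*} (s : Finset ι) (x : ι → K) (P : ι → FractionalIdeal R⁰ K)
    (h : ∀ i ∈ s, x i ∈ P i) : ∏ i ∈ s, x i ∈ ∏ i ∈ s, P i := by
  classical
  induction s using Finset.induction_on with
  | empty => simp
  | insert a s ha ih =>
    rw [Finset.prod_insert ha, Finset.prod_insert ha]
    exact mul_mem_mul (h a (Finset.mem_insert_self _ _))
      (ih fun i hi => h i (Finset.mem_insert_of_mem hi))

theorem det_mem {ι : Type*} [Fintype ι] [DecidableEq ι] (A : Matrix ι ι K)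
    (P Q : ι → FractionalIdeal R⁰ K) (h : ∀ j k, A j k ∈ P j * Q k) :
    A.det ∈ (∏ j, P j) * ∏ j, Q j := by
  rw [Matrix.det_apply]
  refine Submodule.sum_mem _ fun σ _ => ?_
  have h1 : ∏ i, A (σ i) i ∈ (∏ j, P j) * ∏ j, Q j := by
    have h2 := prod_mem_prod Finset.univ (fun i => A (σ i) i) (fun i => P (σ i) * Q i)
      (fun i _ => h (σ i) i)
    rw [Finset.prod_mul_distrib, Equiv.prod_comp σ P] at h2
    exact h2
  rcases Int.units_eq_one_or (Equiv.Perm.sign σ) with hσ | hσ
  · rw [hσ, one_smul]; exact h1
  · rw [hσ, Units.smul_def, Units.val_neg, Units.val_one, neg_smul, one_smul]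
    exact Submodule.neg_mem _ h1

/-- Vectors of `spn e i` in terms of the frame. -/
theorem eq_sum (h : PF n e f I) {i : ℕ} (hi : i < n) {x : Vc K n} (hx : x ∈ spn e i) :
    ∑ j : Fin (i + 1), om K n x (f j) • e j = x := by
  rw [spn] at hx
  induction hx using Submodule.span_induction with
  | mem x hx =>
    obtain ⟨k, rfl⟩ := hx
    rw [Finset.sum_eq_single k]
    · rw [h.ef k (by omega) k (by omega), if_pos rfl, one_smul]
    · intro j _ hjk
      rw [h.ef k (by omega) j (by omega), if_neg (fun h => hjk (Fin.ext h.symm)), zero_smul]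
    · intro hk
      exact absurd (Finset.mem_univ k) hk
  | zero => simp
  | add x y _ _ hx hy =>
    conv_rhs => rw [← hx, ← hy]
    rw [← Finset.sum_add_distrib]
    refine Finset.sum_congr rfl fun j _ => ?_
    rw [map_add, LinearMap.add_apply, add_smul]
  | smul c x _ hx =>
    conv_rhs => rw [← hx]
    rw [Finset.smul_sum]
    refine Finset.sum_congr rfl fun j _ => ?_
    rw [map_smul, LinearMap.smul_apply, smul_smul, smul_eq_mul]

theorem coef_mem (h : PF n e f I) (h' : PF n e' f' I') {j k : ℕ} (hj : j < n) (hk : k < n) :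
    om K n (e' k) (f j) ∈ I j * (I' k)⁻¹ := by
  have hk0 := h'.ne k hk
  -- write the ideal condition
  have h1 : ∀ a ∈ I' k, a * om K n (e' k) (f j) ∈ I j := by
    intro a ha
    have h2 := h.ce j hj _ (h'.le k hk a ha)
    rwa [map_smul, LinearMap.smul_apply, smul_eq_mul] at h2
  have h3 : spanSingleton R⁰ (om K n (e' k) (f j)) * I' k ≤ I j := by
    intro z hz
    rw [mem_singleton_mul] at hz
    obtain ⟨y, hy, rfl⟩ := hz
    rw [mul_comm]
    exact h1 y hy
  have h4 : spanSingleton R⁰ (om K n (e' k) (f j)) ≤ I j * (I' k)⁻¹ := by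
    calc spanSingleton R⁰ (om K n (e' k) (f j))
        = spanSingleton R⁰ (om K n (e' k) (f j)) * I' k * (I' k)⁻¹ := by
          rw [mul_assoc, mul_inv_cancel₀ hk0, mul_one]
      _ ≤ I j * (I' k)⁻¹ := by gcongr
  exact spanSingleton_le_iff_mem.1 h4

theorem sim_of_spn_eq (h : PF n e f I) (h' : PF n e' f' I') {i : ℕ} (hi : i < n)
    (hs : spn e' i = spn e i) :
    Sim (∏ j ∈ Finset.range (i + 1), I j) (∏ j ∈ Finset.range (i + 1), I' j) := by
  classical
  let A : Matrix (Fin (i + 1)) (Fin (i + 1)) K := Matrix.of fun j k => om K n (e' k) (f j)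
  let B : Matrix (Fin (i + 1)) (Fin (i + 1)) K := Matrix.of fun j k => om K n (e k) (f' j)
  have hAB : A * B = 1 := by
    ext j l
    rw [Matrix.mul_apply]
    simp only [A, B, Matrix.of_apply]
    have h1 := h'.eq_sum hi (x := e l) (by rw [hs]; exact mem_spn e (by omega))
    have h2 := congrArg (fun x => om K n x (f j)) h1
    simp only [map_sum, LinearMap.sum_apply, map_smul, LinearMap.smul_apply, smul_eq_mul] at h2
    rw [h.ef l (by omega) j (by omega)] at h2
    rw [Matrix.one_apply]
    calc ∑ k : Fin (i + 1), om K n (e' k) (f j) * om K n (e l) (f' k)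
        = ∑ k : Fin (i + 1), om K n (e l) (f' k) * om K n (e' k) (f j) :=
          Finset.sum_congr rfl fun k _ => mul_comm _ _
      _ = if (l : ℕ) = j then 1 else 0 := h2
      _ = if j = l then 1 else 0 := by
        congr 1
        exact propext ⟨fun h => Fin.ext h.symm, fun h => by rw [h]⟩
  have hdet : A.det * B.det = 1 := by rw [← Matrix.det_mul, hAB, Matrix.det_one]
  have hA : A.det ∈ (∏ j : Fin (i + 1), I j) * ∏ j : Fin (i + 1), (I' j)⁻¹ :=
    det_mem A _ _ fun j k => h.coef_mem h' (by omega) (by omega)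
  have hB : B.det ∈ (∏ j : Fin (i + 1), I' j) * ∏ j : Fin (i + 1), (I j)⁻¹ :=
    det_mem B _ _ fun j k => h'.coef_mem h (by omega) (by omega)
  have hP : ∀ g : ℕ → FractionalIdeal R⁰ K,
      ∏ j : Fin (i + 1), g j = ∏ j ∈ Finset.range (i + 1), g j := fun g =>
    Fin.prod_univ_eq_prod_range g (i + 1)
  have hPi : ∀ g : ℕ → FractionalIdeal R⁰ K,
      ∏ j : Fin (i + 1), (g j)⁻¹ = (∏ j ∈ Finset.range (i + 1), g j)⁻¹ := by
    intro g
    rw [← hP, Finset.prod_inv_distrib]
  rw [hPi, hP] at hA hB
  have h0 : ∏ j ∈ Finset.range (i + 1), I j ≠ 0 :=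
    Finset.prod_ne_zero_iff.2 fun j hj => h.ne j (by have := Finset.mem_range.1 hj; omega)
  have h0' : ∏ j ∈ Finset.range (i + 1), I' j ≠ 0 :=
    Finset.prod_ne_zero_iff.2 fun j hj => h'.ne j (by have := Finset.mem_range.1 hj; omega)
  have hB0 : B.det ≠ 0 := right_ne_zero_of_mul_eq_one hdet
  have hA0 : A.det ≠ 0 := left_ne_zero_of_mul_eq_one hdet
  refine ⟨B.det, hB0, le_antisymm ?_ ?_⟩
  · calc spanSingleton R⁰ B.det * ∏ j ∈ Finset.range (i + 1), I j
        ≤ (∏ j ∈ Finset.range (i + 1), I' j) * (∏ j ∈ Finset.range (i + 1), I j)⁻¹ *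
            ∏ j ∈ Finset.range (i + 1), I j := by
          gcongr
          exact spanSingleton_le_iff_mem.2 hB
      _ = _ := by rw [mul_assoc, inv_mul_cancel₀ h0, mul_one]
  · have h1 : spanSingleton R⁰ A.det * ∏ j ∈ Finset.range (i + 1), I' j ≤
        ∏ j ∈ Finset.range (i + 1), I j := by
      calc spanSingleton R⁰ A.det * ∏ j ∈ Finset.range (i + 1), I' j
          ≤ (∏ j ∈ Finset.range (i + 1), I j) * (∏ j ∈ Finset.range (i + 1), I' j)⁻¹ *
              ∏ j ∈ Finset.range (i + 1), I' j := by
            gcongr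
            exact spanSingleton_le_iff_mem.2 hA
        _ = _ := by rw [mul_assoc, inv_mul_cancel₀ h0', mul_one]
    calc ∏ j ∈ Finset.range (i + 1), I' j
        = spanSingleton R⁰ B.det * (spanSingleton R⁰ A.det *
            ∏ j ∈ Finset.range (i + 1), I' j) := by
          rw [← mul_assoc, spanSingleton_mul_spanSingleton, mul_comm B.det, hdet,
            spanSingleton_one, one_mul]
      _ ≤ _ := by gcongr

end PF

end Pool.Agent.Helper64_Sp
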