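import Pool.Agent.Helper64_Sp.Classify

/-!
# The natural map: Steinitz classes
-/

set_option autoImplicit false
set_option linter.unusedSectionVars false

open Matrix
open scoped nonZeroDivisors
open FractionalIdeal

namespace Pool.Agent.Helper64_Sp

variable (R K : Type*) [CommRing R] [Field K] [Algebra R K]

/-- The standard lattice `R^ι` in `K^ι`. -/
def Lat (ι : Type*) : Submodule R (ι → K) where
  carrier := {x | ∀ j, ∃ r : R, algebraMap R K r = x j}
  add_mem' := by
    intro x y hx hy j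
    obtain ⟨r, hr⟩ := hx j
    obtain ⟨s, hs⟩ := hy j
    exact ⟨r + s, by rw [map_add, hr, hs]; rfl⟩
  zero_mem' := fun j => ⟨0, by rw [map_zero]; rfl⟩
  smul_mem' := by
    intro c x hx j
    obtain ⟨r, hr⟩ := hx j
    exact ⟨c * r, by rw [map_mul, hr, Pi.smul_apply, Algebra.smul_def]⟩

variable {K} in
/-- The `R`-module `W ∩ R^ι`. -/
abbrev cap {ι : Type*} (W : Submodule K (ι → K)) : Submodule R (ι → K) :=
  W.restrictScalars R ⊓ Lat R K ι

variable {R K}
variable [IsDedekindDomain R] [IsFractionRing R K] {n : ℕ}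

theorem mem_Lat_iff {ι : Type*} {x : ι → K} :
    x ∈ Lat R K ι ↔ ∀ j, x j ∈ (1 : FractionalIdeal R⁰ K) := by
  constructor
  · intro h j
    exact (mem_one_iff R⁰).2 (h j)
  · intro h j
    exact (mem_one_iff R⁰).1 (h j)

/-! ### Modules isomorphic to ideals -/

theorem Sim.nonempty_equiv {P Q : FractionalIdeal R⁰ K} (h : Sim P Q) :
    Nonempty ((P : Submodule R K) ≃ₗ[R] (Q : Submodule R K)) := by
  obtain ⟨c, hc, rfl⟩ := h
  let ψ : (P : Submodule R K) →ₗ[R] ((spanSingleton R⁰ c * P : FractionalIdeal R⁰ K) : Submodule R K) :=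
    { toFun := fun p => ⟨c * p.1, mul_mem_mul (mem_spanSingleton_self _ _) p.2⟩
      map_add' := fun p q => Subtype.ext (mul_add _ _ _)
      map_smul' := fun r p => Subtype.ext (by
        simp only [Submodule.coe_smul, RingHom.id_apply, Algebra.smul_def]
        ring) }
  refine ⟨LinearEquiv.ofBijective ψ ⟨?_, ?_⟩⟩
  · intro p q hpq
    have h1 : c * p.1 = c * q.1 := congrArg Subtype.val hpq
    exact Subtype.ext (mul_left_cancel₀ hc h1)
  · rintro ⟨q, hq⟩
    have hq' : q ∈ spanSingleton R⁰ c * P := hq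
    rw [mem_singleton_mul] at hq'
    obtain ⟨y, hy, hy'⟩ := hq'
    exact ⟨⟨y, hy⟩, Subtype.ext hy'.symm⟩

open Helper48_PGL (Lines rep rep_ne_zero span_rep)

theorem line_equiv (L : Lines K) :
    Nonempty (cap R L.1 ≃ₗ[R] (((Helper48_PGL.fid R (rep L))⁻¹ : FractionalIdeal R⁰ K) :
      Submodule R K)) := by
  set v := rep L with hv
  have hv0 : v ≠ 0 := rep_ne_zero L
  have hF := Helper48_PGL.fid_ne_zero (R := R) hv0
  let ψ : (((Helper48_PGL.fid R v)⁻¹ : FractionalIdeal R⁰ K) : Submodule R K) →ₗ[R] cap R L.1 :=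
    { toFun := fun p => ⟨p.1 • v, by
        refine ⟨?_, ?_⟩
        · change p.1 • v ∈ L.1
          rw [span_rep L]
          exact Submodule.smul_mem _ _ (Submodule.mem_span_singleton_self _)
        · change p.1 • v ∈ Lat R K (Fin 2)
          rw [mem_Lat_iff]
          intro j
          have := mul_mem_mul p.2 (Helper48_PGL.mem_fid (R := R) v j)
          rwa [inv_mul_cancel₀ hF] at this⟩
      map_add' := fun p q => Subtype.ext (add_smul _ _ _)
      map_smul' := fun r p => Subtype.ext (by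
        simp only [Submodule.coe_smul, RingHom.id_apply, smul_assoc]) }
  refine ⟨(LinearEquiv.ofBijective ψ ⟨?_, ?_⟩).symm⟩
  · intro p q hpq
    have h1 : p.1 • v = q.1 • v := congrArg Subtype.val hpq
    exact Subtype.ext (smul_left_injective K hv0 h1)
  · rintro ⟨x, hx1, hx2⟩
    have hx1' : x ∈ L.1 := hx1
    have hx2' : x ∈ Lat R K (Fin 2) := hx2
    rw [span_rep L, Submodule.mem_span_singleton] at hx1'
    obtain ⟨c, rfl⟩ := hx1'
    rw [mem_Lat_iff] at hx2'
    refine ⟨⟨c, ?_⟩, rfl⟩
    change c ∈ (Helper48_PGL.fid R v)⁻¹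
    rw [mem_inv_iff hF]
    have hle : spanSingleton R⁰ c * Helper48_PGL.fid R v ≤ 1 := by
      rw [Helper48_PGL.fid, mul_add, spanSingleton_mul_spanSingleton,
        spanSingleton_mul_spanSingleton]
      exact sup_le (spanSingleton_le_iff_mem.2 (hx2' 0)) (spanSingleton_le_iff_mem.2 (hx2' 1))
    intro y hy
    exact hle (mul_mem_mul (mem_spanSingleton_self _ _) hy)

/-! ### The lattice of a member of a flag -/

namespace PF

variable {e f : ℕ → Vc K n} {I : ℕ → FractionalIdeal R⁰ K}

theorem cap_equiv (h : PF n e f I) {i : ℕ} (hi : i < n) (hI : ∀ j < i, I j = 1) :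
    Nonempty (cap R (spn e i) ≃ₗ[R] (Fin i → R) × ((I i : FractionalIdeal R⁰ K) :
      Submodule R K)) := by
  have he : ∀ j < i, IsInt R (e j) := by
    intro j hj
    have := h.le j (by omega) 1 (by rw [hI j hj]; exact one_mem_one _)
    rwa [one_smul] at this
  let ψ : (Fin i → R) × ((I i : FractionalIdeal R⁰ K) : Submodule R K) →ₗ[R] cap R (spn e i) :=
    { toFun := fun x => ⟨∑ j : Fin i, algebraMap R K (x.1 j) • e j + x.2.1 • e i, by
        refine ⟨?_, ?_⟩
        · change _ ∈ spn e i
          exact Submodule.add_mem _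
            (Submodule.sum_mem _ fun j _ => Submodule.smul_mem _ _ (mem_spn e (by omega)))
            (Submodule.smul_mem _ _ (mem_spn e le_rfl))
        · change _ ∈ Lat R K (Fin n ⊕ Fin n)
          rw [mem_Lat_iff]
          exact IsInt.add (IsInt.sum fun j _ => (he j j.2).smul ((mem_one_iff R⁰).2 ⟨_, rfl⟩))
            (h.le i hi _ x.2.2)⟩
      map_add' := fun x y => Subtype.ext (by
        simp only [Prod.fst_add, Prod.snd_add, Pi.add_apply, map_add, add_smul,
          Finset.sum_add_distrib, Submodule.coe_add]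
        abel)
      map_smul' := fun r x => Subtype.ext (by
        change ∑ j : Fin i, algebraMap R K (r * x.1 j) • e j + (r • x.2.1) • e i =
          r • (∑ j : Fin i, algebraMap R K (x.1 j) • e j + x.2.1 • e i)
        rw [smul_add, Finset.smul_sum, smul_assoc]
        congr 1
        refine Finset.sum_congr rfl fun j _ => ?_
        rw [map_mul, mul_smul, algebraMap_smul]) }
  have hof : ∀ x, ∀ k < n, om K n (ψ x).1 (f k) = ∑ j : Fin i, algebraMap R K (x.1 j) *
      (if (j : ℕ) = k then 1 else 0) + x.2.1 * (if i = k then 1 else 0) := by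
    intro x k hk
    change om K n (∑ j : Fin i, algebraMap R K (x.1 j) • e j + x.2.1 • e i) (f k) = _
    rw [map_add, LinearMap.add_apply, map_sum, LinearMap.sum_apply, map_smul,
      LinearMap.smul_apply, h.ef i hi k hk, smul_eq_mul]
    congr 1
    refine Finset.sum_congr rfl fun j _ => ?_
    rw [map_smul, LinearMap.smul_apply, h.ef j (by omega) k hk, smul_eq_mul]
  have hof1 : ∀ x, ∀ k : Fin i, om K n (ψ x).1 (f k) = algebraMap R K (x.1 k) := by
    intro x k
    rw [hof x k (by omega), Finset.sum_eq_single k]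
    · rw [if_pos rfl, if_neg (by omega)]; ring
    · intro j _ hjk
      rw [if_neg (fun h => hjk (Fin.ext h)), mul_zero]
    · intro hk
      exact absurd (Finset.mem_univ k) hk
  have hof2 : ∀ x, om K n (ψ x).1 (f i) = x.2.1 := by
    intro x
    rw [hof x i hi, Finset.sum_eq_zero, if_pos rfl]
    · ring
    · intro j _
      rw [if_neg (by omega), mul_zero]
  refine ⟨(LinearEquiv.ofBijective ψ ⟨?_, ?_⟩).symm⟩
  · intro x y hxy
    refine Prod.ext (funext fun k => ?_) (Subtype.ext ?_)
    · apply IsFractionRing.injective R K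
      rw [← hof1 x k, ← hof1 y k, hxy]
    · rw [← hof2 x, ← hof2 y, hxy]
  · rintro ⟨w, hw1, hw2⟩
    have hw1' : w ∈ spn e i := hw1
    have hw2' : IsInt R w := mem_Lat_iff.1 hw2
    have h1 : ∀ j : Fin i, ∃ r : R, algebraMap R K r = om K n w (f j) := by
      intro j
      have := h.ce j (by omega) w hw2'
      rw [hI j j.2] at this
      exact (mem_one_iff R⁰).1 this
    choose r hr using h1
    refine ⟨(r, ⟨om K n w (f i), h.ce i hi w hw2'⟩), Subtype.ext ?_⟩
    change ∑ j : Fin i, algebraMap R K (r j) • e j + om K n w (f i) • e i = w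
    conv_rhs => rw [← h.eq_sum hi hw1']
    rw [Fin.sum_univ_castSucc]
    simp only [hr, Fin.val_castSucc, Fin.val_last]

end PF

theorem flag_equiv {T : Finset (Fin n)} (F : Flag K n T) (i : T) :
    ∃ P : FractionalIdeal R⁰ K, P ≠ 0 ∧ kl P = clS R F i ∧
      Nonempty (cap R (F.W i) ≃ₗ[R] (Fin ((i : Fin n) : ℕ) → R) × (P : Submodule R K)) := by
  obtain ⟨e, f, I, h, ha⟩ := exists_adapted (R := R) F
  have hP := h.prd_ne i.1.2
  let J : ℕ → FractionalIdeal R⁰ K := fun j => if j = ((i : Fin n) : ℕ) then prd I (i : Fin n) else 1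
  have hiT : ({(i : Fin n)} : Finset (Fin n)) ⊆ T := Finset.singleton_subset_iff.2 i.2
  obtain ⟨e1, f1, I1, h1, ha1, -, hI1⟩ := h.exists_normal (F.face hiT) (J := J) (by
      intro j _
      simp only [J]
      split_ifs
      · exact hP
      · exact one_ne_zero)
    (fun k => ha ⟨k.1, hiT k.2⟩) (by
      intro k
      have hk : (k : Fin n) = i := Finset.mem_singleton.1 k.2
      rw [hk, Finset.prod_range_succ (f := J)]
      have h2 : ∏ j ∈ Finset.range ((i : Fin n) : ℕ), J j = 1 := by
        refine Finset.prod_eq_one fun j hj => ?_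
        exact if_neg (ne_of_lt (Finset.mem_range.1 hj))
      have h3 : J ((i : Fin n) : ℕ) = prd I (i : Fin n) := if_pos rfl
      rw [h2, h3, one_mul]
      exact ⟨1, one_ne_zero, by rw [spanSingleton_one, one_mul]; rfl⟩) n le_rfl
  refine ⟨prd I (i : Fin n), hP, (clS_eq F h ha i).symm, ?_⟩
  have hW : F.W i = spn e1 ((i : Fin n) : ℕ) := ha1 ⟨i, Finset.mem_singleton_self _⟩
  have h4 := h1.cap_equiv i.1.2 (by
    intro j hj
    rw [hI1 j (by have := i.1.2; omega)]
    exact if_neg (ne_of_lt hj))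
  rw [hI1 _ i.1.2] at h4
  have h3 : J ((i : Fin n) : ℕ) = prd I (i : Fin n) := if_pos rfl
  rw [h3] at h4
  rw [hW]
  exact h4

/-! ### Cancellation -/

section cancel

variable {i : ℕ} {A B C : FractionalIdeal R⁰ K}

/-- The coordinates. -/
def crd (x : (Fin i → R) × (A : Submodule R K)) : Fin i ⊕ Unit → K :=
  Sum.elim (fun j => algebraMap R K (x.1 j)) (fun _ => x.2.1)

theorem crd_add (x y : (Fin i → R) × (A : Submodule R K)) : crd (x + y) = crd x + crd y := by
  funext j
  rcases j with j | j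
  · exact map_add _ _ _
  · rfl

theorem crd_smul (r : R) (x : (Fin i → R) × (A : Submodule R K)) :
    crd (r • x) = algebraMap R K r • crd x := by
  funext j
  rcases j with j | j
  · exact map_mul _ _ _
  · exact Algebra.smul_def _ _

theorem crd_injective : Function.Injective (crd (R := R) (K := K) (i := i) (A := A)) := by
  intro x y h
  refine Prod.ext (funext fun j => ?_) (Subtype.ext ?_)
  · exact IsFractionRing.injective R K (congrFun h (Sum.inl j))
  · exact congrFun h (Sum.inr ())

/-- Every vector is a quotient. -/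
theorem exists_crd (hA : A ≠ 0) (x : Fin i ⊕ Unit → K) :
    ∃ r : R, algebraMap R K r ≠ 0 ∧ ∃ y : (Fin i → R) × (A : Submodule R K),
      crd y = algebraMap R K r • x := by
  classical
  obtain ⟨a, ha, ha0⟩ : ∃ a ∈ A, a ≠ 0 := by
    by_contra hcon
    push Not at hcon
    exact hA (FractionalIdeal.eq_zero_iff.2 hcon)
  obtain ⟨b, hb⟩ := IsLocalization.exist_integer_multiples_of_finset R⁰
    (Finset.univ.image (Sum.elim (fun j : Fin i => x (Sum.inl j)) (fun _ : Unit => x (Sum.inr ()) / a)))
  have hb0 : algebraMap R K b ≠ 0 := by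
    rw [Ne, map_eq_zero_iff _ (IsFractionRing.injective R K)]
    exact nonZeroDivisors.coe_ne_zero b
  have h1 : ∀ j : Fin i, ∃ r : R, algebraMap R K r = algebraMap R K b * x (Sum.inl j) := by
    intro j
    obtain ⟨r, hr⟩ := hb (x (Sum.inl j)) (Finset.mem_image.2 ⟨Sum.inl j, Finset.mem_univ _, rfl⟩)
    exact ⟨r, by rw [hr]; exact Algebra.smul_def _ _⟩
  have h2 : ∃ r : R, algebraMap R K r = algebraMap R K b * (x (Sum.inr ()) / a) := by
    obtain ⟨r, hr⟩ := hb (x (Sum.inr ()) / a) (Finset.mem_image.2 ⟨Sum.inr (), Finset.mem_univ _, rfl⟩)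
    exact ⟨r, by rw [hr]; exact Algebra.smul_def _ _⟩
  choose r hr using h1
  obtain ⟨s, hs⟩ := h2
  refine ⟨b, hb0, (r, ⟨s • a, Submodule.smul_mem _ _ ha⟩), ?_⟩
  funext j
  rcases j with j | j
  · exact hr j
  · change s • a = algebraMap R K b * x (Sum.inr ())
    rw [Algebra.smul_def, hs]
    field_simp

/-- The coordinate ideals. -/
noncomputable def cid (A : FractionalIdeal R⁰ K) : Fin i ⊕ Unit → FractionalIdeal R⁰ K :=
  Sum.elim (fun _ => 1) (fun _ => A)

theorem crd_mem (x : (Fin i → R) × (A : Submodule R K)) (j : Fin i ⊕ Unit) :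
    crd x j ∈ cid A j := by
  rcases j with j | j
  · exact (mem_one_iff R⁰).2 ⟨_, rfl⟩
  · exact x.2.2

theorem exists_crd_single {k : Fin i ⊕ Unit} {a : K} (ha : a ∈ cid A k) :
    ∃ x : (Fin i → R) × (A : Submodule R K), crd x = a • (Pi.single k 1 : Fin i ⊕ Unit → K) := by
  classical
  rcases k with k | k
  · obtain ⟨r, hr⟩ := (mem_one_iff R⁰).1 ha
    refine ⟨(Pi.single k r, 0), ?_⟩
    funext j
    rcases j with j | j
    · change algebraMap R K ((Pi.single k r : Fin i → R) j) =
        a * (Pi.single (Sum.inl k) 1 : Fin i ⊕ Unit → K) (Sum.inl j)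
      by_cases hjk : j = k
      · subst hjk; rw [Pi.single_eq_same, Pi.single_eq_same, hr, mul_one]
      · rw [Pi.single_eq_of_ne hjk, Pi.single_eq_of_ne (fun h => hjk (Sum.inl_injective h)), map_zero,
          mul_zero]
    · change (0 : K) = a * (Pi.single (Sum.inl k) 1 : Fin i ⊕ Unit → K) (Sum.inr j)
      rw [Pi.single_eq_of_ne (by simp), mul_zero]
  · refine ⟨(0, ⟨a, ha⟩), ?_⟩
    funext j
    rcases j with j | j
    · change algebraMap R K 0 = a * (Pi.single (Sum.inr k) 1 : Fin i ⊕ Unit → K) (Sum.inl j)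
      rw [Pi.single_eq_of_ne (by simp), mul_zero, map_zero]
    · change a = a * (Pi.single (Sum.inr k) 1 : Fin i ⊕ Unit → K) (Sum.inr j)
      rw [Pi.single_eq_same, mul_one]

/-- Linear maps are given by matrices. -/
theorem exists_matrix (hA : A ≠ 0)
    (φ : ((Fin i → R) × (A : Submodule R K)) →ₗ[R] ((Fin i → R) × (B : Submodule R K))) :
    ∃ M : Matrix (Fin i ⊕ Unit) (Fin i ⊕ Unit) K, ∀ x, crd (φ x) = M.mulVec (crd x) := by
  classical
  -- a nonzero element of every coordinate ideal
  have h0 : ∀ k : Fin i ⊕ Unit, ∃ r : R, algebraMap R K r ≠ 0 ∧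
      ∃ y : (Fin i → R) × (A : Submodule R K),
        crd y = algebraMap R K r • (Pi.single k 1 : Fin i ⊕ Unit → K) := fun k =>
    exists_crd hA _
  choose r hr0 y hy using h0
  refine ⟨Matrix.of fun j k => (algebraMap R K (r k))⁻¹ * crd (φ (y k)) j, fun x => ?_⟩
  -- common denominators
  obtain ⟨b, hb⟩ := IsLocalization.exist_integer_multiples_of_finset R⁰
    (Finset.univ.image fun k => crd x k / algebraMap R K (r k))
  have hb0 : algebraMap R K b ≠ 0 := by
    rw [Ne, map_eq_zero_iff _ (IsFractionRing.injective R K)]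
    exact nonZeroDivisors.coe_ne_zero b
  have h1 : ∀ k, ∃ s : R, algebraMap R K s = algebraMap R K b * (crd x k / algebraMap R K (r k)) := by
    intro k
    obtain ⟨s, hs⟩ := hb _ (Finset.mem_image.2 ⟨k, Finset.mem_univ _, rfl⟩)
    exact ⟨s, by rw [hs]; exact Algebra.smul_def _ _⟩
  choose s hs using h1
  have hsum : ∀ (C : FractionalIdeal R⁰ K) (g : Fin i ⊕ Unit → (Fin i → R) × (C : Submodule R K)),
      crd (∑ k, s k • g k) = ∑ k, algebraMap R K (s k) • crd (g k) := by
    intro C g
    have : ∀ t : Finset (Fin i ⊕ Unit),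
        crd (∑ k ∈ t, s k • g k) = ∑ k ∈ t, algebraMap R K (s k) • crd (g k) := by
      intro t
      induction t using Finset.induction_on with
      | empty =>
        rw [Finset.sum_empty, Finset.sum_empty]
        funext j
        rcases j with j | j
        · exact map_zero _
        · rfl
      | insert a t ha ih => rw [Finset.sum_insert ha, Finset.sum_insert ha, crd_add, crd_smul, ih]
    exact this _
  have h2 : (b : R) • x = ∑ k, s k • y k := by
    apply crd_injective
    rw [crd_smul, hsum]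
    funext j
    rw [Finset.sum_apply, Finset.sum_eq_single j]
    · rw [hy, hs, Pi.smul_apply, Pi.smul_apply, Pi.smul_apply, Pi.single_eq_same]
      have := hr0 j
      simp only [smul_eq_mul]
      field_simp
    · intro k _ hk
      rw [hy, Pi.smul_apply, Pi.smul_apply, Pi.single_eq_of_ne hk.symm, smul_zero, smul_zero]
    · intro hj
      exact absurd (Finset.mem_univ j) hj
  have h3 := congrArg (fun z => crd (φ z)) h2
  simp only [map_sum, map_smul] at h3
  rw [crd_smul, hsum] at h3
  funext j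
  have h4 := congrFun h3 j
  rw [Pi.smul_apply, Finset.sum_apply, smul_eq_mul] at h4
  apply mul_left_cancel₀ hb0
  rw [h4, Matrix.mulVec, dotProduct, Finset.mul_sum]
  refine Finset.sum_congr rfl fun k _ => ?_
  rw [Pi.smul_apply, smul_eq_mul, hs, Matrix.of_apply]
  have := hr0 k
  field_simp

theorem mem_mul_inv {P Q : FractionalIdeal R⁰ K} (hQ : Q ≠ 0) {x : K} (h : ∀ a ∈ Q, a * x ∈ P) :
    x ∈ P * Q⁻¹ := by
  have h3 : spanSingleton R⁰ x * Q ≤ P := by
    intro z hz
    rw [mem_singleton_mul] at hz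
    obtain ⟨y, hy, rfl⟩ := hz
    rw [mul_comm]
    exact h y hy
  apply spanSingleton_le_iff_mem.1
  calc spanSingleton R⁰ x = spanSingleton R⁰ x * Q * Q⁻¹ := by
        rw [mul_assoc, mul_inv_cancel₀ hQ, mul_one]
    _ ≤ P * Q⁻¹ := by gcongr

theorem sim_of_det {P Q : FractionalIdeal R⁰ K} (hP : P ≠ 0) (hQ : Q ≠ 0) {a b : K}
    (ha : a ∈ P * Q⁻¹) (hb : b ∈ Q * P⁻¹) (hab : a * b = 1) : Sim P Q := by
  refine ⟨b, right_ne_zero_of_mul_eq_one hab, le_antisymm ?_ ?_⟩
  · calc spanSingleton R⁰ b * P ≤ Q * P⁻¹ * P := by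
          gcongr
          exact spanSingleton_le_iff_mem.2 hb
      _ = _ := by rw [mul_assoc, inv_mul_cancel₀ hP, mul_one]
  · have h1 : spanSingleton R⁰ a * Q ≤ P := by
      calc spanSingleton R⁰ a * Q ≤ P * Q⁻¹ * Q := by
            gcongr
            exact spanSingleton_le_iff_mem.2 ha
        _ = _ := by rw [mul_assoc, inv_mul_cancel₀ hQ, mul_one]
    calc Q = spanSingleton R⁰ b * (spanSingleton R⁰ a * Q) := by
          rw [← mul_assoc, spanSingleton_mul_spanSingleton, mul_comm b, hab, spanSingleton_one,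
            one_mul]
      _ ≤ _ := by gcongr

theorem cancel (hA : A ≠ 0) (hB : B ≠ 0)
    (h : Nonempty (((Fin i → R) × (A : Submodule R K)) ≃ₗ[R]
      ((Fin i → R) × (B : Submodule R K)))) : Sim A B := by
  classical
  obtain ⟨φ⟩ := h
  obtain ⟨M, hM⟩ := exists_matrix hA φ.toLinearMap
  obtain ⟨N, hN⟩ := exists_matrix hB φ.symm.toLinearMap
  have hMN : M * N = 1 := by
    apply Matrix.ext_of_mulVec_single
    intro k
    rw [Matrix.one_mulVec]
    obtain ⟨r, hr, y, hy⟩ := exists_crd hB (Pi.single k 1 : Fin i ⊕ Unit → K)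
    have h1 := hM (φ.symm y)
    have h2 := hN y
    change crd (φ.symm y) = _ at h2
    change crd (φ (φ.symm y)) = _ at h1
    rw [LinearEquiv.apply_symm_apply, h2, Matrix.mulVec_mulVec, hy, Matrix.mulVec_smul] at h1
    exact (smul_right_injective _ hr h1).symm
  have hent : ∀ (A B : FractionalIdeal R⁰ K), A ≠ 0 →
      ∀ (φ : ((Fin i → R) × (A : Submodule R K)) →ₗ[R] ((Fin i → R) × (B : Submodule R K)))
        (M : Matrix (Fin i ⊕ Unit) (Fin i ⊕ Unit) K), (∀ x, crd (φ x) = M.mulVec (crd x)) →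
        M.det ∈ B * A⁻¹ := by
    intro A B hA φ M hM
    have hcid : ∀ k : Fin i ⊕ Unit, cid A k ≠ 0 := by
      rintro (k | k)
      · exact one_ne_zero
      · exact hA
    have h1 : ∀ j k, M j k ∈ cid B j * (cid A k)⁻¹ := by
      intro j k
      refine mem_mul_inv (hcid k) fun a ha => ?_
      obtain ⟨x, hx⟩ := exists_crd_single ha
      have h2 := congrFun (hM x) j
      rw [hx, Matrix.mulVec_smul, Matrix.mulVec_single_one, Pi.smul_apply, smul_eq_mul] at h2
      have h3 := crd_mem (φ x) j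
      rw [h2] at h3
      exact h3
    have h2 := PF.det_mem M (cid B) (fun k => (cid A k)⁻¹) h1
    rw [Fintype.prod_sum_type, Fintype.prod_sum_type] at h2
    simpa [cid] using h2
  refine sim_of_det hA hB (a := N.det) (b := M.det) (hent _ _ hB _ _ hN) (hent _ _ hA _ _ hM) ?_
  rw [mul_comm, ← Matrix.det_mul, hMN, Matrix.det_one]

end cancel

end Pool.Agent.Helper64_Sp
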